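import Mathlib

/-! # Rational polyhedral cones are generated by finitely many vectors with natural entries -/

set_option autoImplicit false

open Finset

namespace Pool.Agent.H60.Gordan

/-- A real nonnegative solution of a homogeneous integral system can be replaced by a nonzero
solution in natural numbers with no larger support. -/
theorem exists_nat_solution {ι M : Type*} [Fintype ι] (E : M → ι → ℤ) (z : ι → ℝ)
    (hz0 : ∀ i, 0 ≤ z i) (hz : z ≠ 0) (hE : ∀ m, ∑ i, (E m i : ℝ) * z i = 0) :
    ∃ g : ι → ℕ, g ≠ 0 ∧ (∀ i, z i = 0 → g i = 0) ∧ ∀ m, ∑ i, E m i * (g i : ℤ) = 0 := by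
  classical
  let U : Submodule ℚ ℝ := Submodule.span ℚ (Set.range z)
  have hfd : FiniteDimensional ℚ U := FiniteDimensional.span_of_finite ℚ (Set.finite_range z)
  let b := Module.finBasis ℚ U
  set d := Module.finrank ℚ U with hd
  have hzU : ∀ i, z i ∈ U := fun i => Submodule.subset_span ⟨i, rfl⟩
  let w : ι → Fin d → ℚ := fun i k => b.repr ⟨z i, hzU i⟩ k
  have hzw : ∀ i, z i = ∑ k, (w i k : ℝ) * (b k : ℝ) := by
    intro i
    have h1 := b.sum_repr ⟨z i, hzU i⟩
    have h2 := congrArg (Submodule.subtype U) h1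
    rw [map_sum] at h2
    simp only [Submodule.subtype_apply, Submodule.coe_smul] at h2
    rw [← h2]
    refine Finset.sum_congr rfl fun k _ => ?_
    rw [Rat.smul_def]
  have hEw : ∀ m k, ∑ i, (E m i : ℚ) * w i k = 0 := by
    intro m k
    have h1 : ∑ i, (E m i : ℚ) • (⟨z i, hzU i⟩ : U) = 0 := by
      apply Subtype.ext
      rw [← Submodule.subtype_apply, map_sum]
      simp only [Submodule.subtype_apply, Submodule.coe_smul, Submodule.coe_zero]
      rw [← hE m]
      refine Finset.sum_congr rfl fun i _ => ?_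
      rw [Rat.smul_def]
      push_cast; rfl
    have h2 := congrArg (fun u => b.repr u k) h1
    simp only [map_sum, map_smul, map_zero, Finsupp.coe_zero, Pi.zero_apply,
      Finsupp.coe_finsetSum, Finset.sum_apply, Finsupp.coe_smul, Pi.smul_apply,
      smul_eq_mul] at h2
    exact h2
  have hw0 : ∀ i, z i = 0 → ∀ k, w i k = 0 := by
    intro i hi k
    have : (⟨z i, hzU i⟩ : U) = 0 := Subtype.ext hi
    simp only [w, this, map_zero, Finsupp.coe_zero, Pi.zero_apply]
  -- an open condition
  let O : Set (Fin d → ℝ) := {c | ∀ i, z i ≠ 0 → 0 < ∑ k, (w i k : ℝ) * c k}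
  have hO : IsOpen O := by
    have e : O = ⋂ i, {c : Fin d → ℝ | z i ≠ 0 → 0 < ∑ k, (w i k : ℝ) * c k} := by
      ext c; simp [O]
    rw [e]
    refine isOpen_iInter_of_finite fun i => ?_
    by_cases hi : z i ≠ 0
    · simp only [hi, ne_eq, not_false_eq_true, true_imp_iff]
      exact isOpen_lt continuous_const (by fun_prop)
    · simp [hi]
  have hOne : O.Nonempty := ⟨fun k => (b k : ℝ), fun i hi => by
    rw [← hzw]; exact lt_of_le_of_ne (hz0 i) (Ne.symm hi)⟩
  have hdr : DenseRange (fun q : Fin d → ℚ => fun k => (q k : ℝ)) :=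
    DenseRange.piMap (fun _ => Rat.denseRange_cast)
  obtain ⟨q, hq⟩ := hdr.exists_mem_open hO hOne
  let z' : ι → ℚ := fun i => ∑ k, w i k * q k
  have hz'pos : ∀ i, z i ≠ 0 → 0 < z' i := by
    intro i hi
    have h1 := hq i hi
    have h2 : ((z' i : ℚ) : ℝ) = ∑ k, (w i k : ℝ) * (q k : ℝ) := by
      simp only [z']; push_cast; rfl
    rw [← h2] at h1
    exact_mod_cast h1
  have hz'0 : ∀ i, z i = 0 → z' i = 0 := by
    intro i hi
    simp only [z']
    exact Finset.sum_eq_zero fun k _ => by rw [hw0 i hi k, zero_mul]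
  have hz'nn : ∀ i, 0 ≤ z' i := fun i => by
    by_cases hi : z i = 0
    · rw [hz'0 i hi]
    · exact (hz'pos i hi).le
  have hEz' : ∀ m, ∑ i, (E m i : ℚ) * z' i = 0 := by
    intro m
    simp only [z', Finset.mul_sum]
    rw [Finset.sum_comm]
    refine Finset.sum_eq_zero fun k _ => ?_
    rw [← zero_mul (q k), ← hEw m k, Finset.sum_mul]
    exact Finset.sum_congr rfl fun i _ => by ring
  -- clear denominators
  let D : ℕ := ∏ i, (z' i).den
  have hDpos : 0 < D := Finset.prod_pos fun i _ => (z' i).den_pos
  have hint : ∀ i, ∃ g : ℕ, (D : ℚ) * z' i = g := by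
    intro i
    obtain ⟨c, hc⟩ := Finset.dvd_prod_of_mem (fun i => (z' i).den) (Finset.mem_univ i)
    refine ⟨c * (z' i).num.toNat, ?_⟩
    have h1 : ((z' i).num.toNat : ℤ) = (z' i).num :=
      Int.toNat_of_nonneg (Rat.num_nonneg.mpr (hz'nn i))
    have h2 : ((z' i).num.toNat : ℚ) = ((z' i).num : ℚ) := by exact_mod_cast congrArg (Int.cast : ℤ → ℚ) h1
    have h3 : (D : ℚ) = (z' i).den * c := by
      have : D = (z' i).den * c := hc
      rw [this]; push_cast; rfl
    push_cast
    rw [h2, h3]
    have h4 : (z' i) * ((z' i).den : ℚ) = (z' i).num := Rat.mul_den_eq_num (z' i)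
    calc ((z' i).den : ℚ) * c * z' i = c * (z' i * (z' i).den) := by ring
      _ = c * ((z' i).num : ℚ) := by rw [h4]
  choose g hg using hint
  refine ⟨g, ?_, ?_, ?_⟩
  · intro h0
    obtain ⟨i, hi⟩ : ∃ i, z i ≠ 0 := by
      by_contra hno
      push Not at hno
      exact hz (funext hno)
    have h1 := hg i
    rw [h0] at h1
    simp only [Pi.zero_apply, Nat.cast_zero] at h1
    have h2 : 0 < (D : ℚ) * z' i := mul_pos (by exact_mod_cast hDpos) (hz'pos i hi)
    rw [h1] at h2
    exact lt_irrefl _ h2
  · intro i hi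
    have h1 := hg i
    rw [hz'0 i hi, mul_zero] at h1
    exact_mod_cast h1.symm
  · intro m
    have h1 : ∑ i, (E m i : ℚ) * (g i : ℚ) = 0 := by
      calc ∑ i, (E m i : ℚ) * (g i : ℚ) = ∑ i, (D : ℚ) * ((E m i : ℚ) * z' i) := by
            refine Finset.sum_congr rfl fun i _ => ?_
            rw [← hg i]; ring
        _ = 0 := by rw [← Finset.mul_sum, hEz' m, mul_zero]
    exact_mod_cast h1

/-- **Finite generation.** -/
theorem exists_generators {ι M : Type} [Fintype ι] (E : M → ι → ℤ) :
    ∃ (J : Type) (_ : Fintype J) (_ : DecidableEq J) (g : J → ι → ℕ),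
      (∀ j m, ∑ i, E m i * (g j i : ℤ) = 0) ∧ (∀ j, g j ≠ 0) ∧
      ∀ z : ι → ℝ, (∀ i, 0 ≤ z i) → (∀ m, ∑ i, (E m i : ℝ) * z i = 0) →
        ∃ c : J → ℝ, (∀ j, 0 ≤ c j) ∧ ∀ i, z i = ∑ j, c j * (g j i : ℝ) := by
  classical
  let Good : Finset ι → Prop := fun S => ∃ g : ι → ℕ, g ≠ 0 ∧ (∀ i, i ∉ S → g i = 0) ∧
    ∀ m, ∑ i, E m i * (g i : ℤ) = 0
  let J := {S : Finset ι // Good S}
  have hJ : ∀ S : J, ∃ g : ι → ℕ, g ≠ 0 ∧ (∀ i, i ∉ S.1 → g i = 0) ∧
    ∀ m, ∑ i, E m i * (g i : ℤ) = 0 := fun S => S.2
  choose g hg0 hgS hgE using hJ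
  refine ⟨J, inferInstance, inferInstance, g, hgE, hg0, ?_⟩
  have key : ∀ n : ℕ, ∀ z : ι → ℝ, (univ.filter fun i => z i ≠ 0).card ≤ n → (∀ i, 0 ≤ z i) →
      (∀ m, ∑ i, (E m i : ℝ) * z i = 0) →
        ∃ c : J → ℝ, (∀ j, 0 ≤ c j) ∧ ∀ i, z i = ∑ j, c j * (g j i : ℝ) := by
    intro n
    induction n with
    | zero =>
      intro z hcard _ _
      have h1 : univ.filter (fun i => z i ≠ 0) = ∅ := Finset.card_eq_zero.mp (by omega)
      refine ⟨0, fun _ => le_rfl, fun i => ?_⟩
      have h2 : i ∉ univ.filter (fun i => z i ≠ 0) := by rw [h1]; simp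
      simp only [Finset.mem_filter, Finset.mem_univ, true_and, not_not] at h2
      simp [h2]
    | succ n ih =>
      intro z hcard hz0 hzE
      by_cases hz : z = 0
      · exact ⟨0, fun _ => le_rfl, fun i => by simp [hz]⟩
      · obtain ⟨g', hg'0, hg'S, hg'E⟩ := exists_nat_solution E z hz0 hz hzE
        set S : Finset ι := univ.filter fun i => z i ≠ 0 with hS
        have hgood : Good S := ⟨g', hg'0, fun i hi => hg'S i (by
          simp only [hS, Finset.mem_filter, Finset.mem_univ, true_and, not_not] at hi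
          exact hi), hg'E⟩
        let j : J := ⟨S, hgood⟩
        -- the minimal ratio
        let T : Finset ι := univ.filter fun i => g j i ≠ 0
        have hTne : T.Nonempty := by
          obtain ⟨i, hi⟩ : ∃ i, g j i ≠ 0 := by
            by_contra hno
            push Not at hno
            exact hg0 j (funext hno)
          exact ⟨i, by simp [T, hi]⟩
        have hTS : ∀ i ∈ T, i ∈ S := by
          intro i hi
          by_contra hn
          have := hgS j i hn
          simp [T, this] at hi
        obtain ⟨i₀, hi₀, hmin⟩ := Finset.exists_min_image T (fun i => z i / (g j i : ℝ)) hTne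
        set t : ℝ := z i₀ / (g j i₀ : ℝ) with ht
        have hgpos : ∀ i ∈ T, (0 : ℝ) < g j i := by
          intro i hi
          have : g j i ≠ 0 := by simpa [T] using hi
          exact_mod_cast Nat.pos_of_ne_zero this
        have ht0 : 0 ≤ t := div_nonneg (hz0 i₀) (hgpos i₀ hi₀).le
        let z1 : ι → ℝ := fun i => z i - t * g j i
        have hz1 : ∀ i, 0 ≤ z1 i := by
          intro i
          by_cases hi : i ∈ T
          · have h1 := hmin i hi
            rw [le_div_iff₀ (hgpos i hi)] at h1
            simp only [z1]; linarith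
          · have h2 : g j i = 0 := by simpa [T] using hi
            simp only [z1, h2, Nat.cast_zero, mul_zero, sub_zero]
            exact hz0 i
        have hz1E : ∀ m, ∑ i, (E m i : ℝ) * z1 i = 0 := by
          intro m
          have h1 : ∑ i, (E m i : ℝ) * (g j i : ℝ) = 0 := by exact_mod_cast hgE j m
          simp only [z1, mul_sub, Finset.sum_sub_distrib, hzE m]
          have h2 : ∑ i, (E m i : ℝ) * (t * (g j i : ℝ)) = t * ∑ i, (E m i : ℝ) * (g j i : ℝ) := by
            rw [Finset.mul_sum]
            exact Finset.sum_congr rfl fun i _ => by ring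
          rw [h2, h1]; ring
        have hsub : univ.filter (fun i => z1 i ≠ 0) ⊂ S := by
          rw [Finset.ssubset_iff_of_subset]
          · refine ⟨i₀, hTS i₀ hi₀, ?_⟩
            have : z1 i₀ = 0 := by
              simp only [z1, ht]
              rw [div_mul_cancel₀ _ (hgpos i₀ hi₀).ne']
              ring
            simp [this]
          · intro i hi
            by_contra hn
            have h3 : z i = 0 := by
              simpa [hS] using hn
            have h4 : g j i = 0 := hgS j i hn
            simp [z1, h3, h4] at hi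
        have hcard1 : (univ.filter (fun i => z1 i ≠ 0)).card ≤ n := by
          have := Finset.card_lt_card hsub
          omega
        obtain ⟨c, hc0, hc⟩ := ih z1 hcard1 hz1 hz1E
        refine ⟨fun j' => c j' + if j' = j then t else 0, fun j' => ?_, fun i => ?_⟩
        · by_cases h : j' = j
          · simp only [h, if_true]; exact add_nonneg (hc0 j) ht0
          · simp only [h, if_false, add_zero]; exact hc0 j'
        · have h1 := hc i
          simp only [z1] at h1
          have h2 : ∑ j', (c j' + if j' = j then t else 0) * (g j' i : ℝ)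
              = ∑ j', c j' * (g j' i : ℝ) + t * (g j i : ℝ) := by
            simp only [add_mul, Finset.sum_add_distrib]
            congr 1
            rw [Finset.sum_eq_single j]
            · simp
            · intro b _ hb; simp [hb]
            · intro h; exact absurd (Finset.mem_univ j) h
          rw [h2, ← h1]; ring
  intro z hz0 hzE
  exact key _ z le_rfl hz0 hzE

end Pool.Agent.H60.Gordan
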