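import Mathlib

/-! # Regular triangulations of pointed vector configurations

A finite family `v` of real vectors on which a linear form is positive, and generic heights `h`.
The upper simplices have disjoint open cones, and their closed cones cover the cone of the
family. -/

set_option autoImplicit false

open Finset

namespace Pool.Agent.H60.RegTri

variable {ι κ : Type*} [Fintype ι] [DecidableEq ι] [Fintype κ]

/-- The open cone over `σ`. -/
def oCone (v : ι → κ → ℝ) (σ : Finset ι) : Set (κ → ℝ) :=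
  {y | ∃ x : ι → ℝ, (∀ i ∈ σ, 0 < x i) ∧ y = ∑ i ∈ σ, x i • v i}

/-- The closed cone over `σ`. -/
def cCone (v : ι → κ → ℝ) (σ : Finset ι) : Set (κ → ℝ) :=
  {y | ∃ x : ι → ℝ, (∀ i ∈ σ, 0 ≤ x i) ∧ y = ∑ i ∈ σ, x i • v i}

/-- Upper simplices of the configuration `v` restricted to `τ` with heights `h`. -/
def UpperOn (v : ι → κ → ℝ) (h : ι → ℝ) (τ σ : Finset ι) : Prop :=
  σ ⊆ τ ∧ LinearIndepOn ℝ v (σ : Set ι) ∧
    ∀ l ∈ τ, l ∉ σ → ∀ β : ι → ℝ, v l = ∑ i ∈ σ, β i • v i → h l < ∑ i ∈ σ, β i * h i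

/-- Generic heights. -/
def GenericOn (v : ι → κ → ℝ) (h : ι → ℝ) (τ : Finset ι) : Prop :=
  ∀ σ ⊆ τ, LinearIndepOn ℝ v (σ : Set ι) →
    ∀ l ∈ τ, l ∉ σ → ∀ β : ι → ℝ, v l = ∑ i ∈ σ, β i • v i → h l ≠ ∑ i ∈ σ, β i * h i

omit [Fintype ι] [DecidableEq ι] [Fintype κ] in
lemma mem_span_iff (v : ι → κ → ℝ) (σ : Finset ι) (y : κ → ℝ) :
    y ∈ Submodule.span ℝ (v '' (σ : Set ι)) ↔ ∃ β : ι → ℝ, y = ∑ i ∈ σ, β i • v i := by
  rw [Submodule.mem_span_image_finset_iff_exists_fun']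
  exact ⟨fun ⟨c, h⟩ => ⟨c, h.symm⟩, fun ⟨c, h⟩ => ⟨c, h.symm⟩⟩

omit [Fintype ι] [DecidableEq ι] [Fintype κ] in
lemma coeff_unique (v : ι → κ → ℝ) (σ : Finset ι) (hσ : LinearIndepOn ℝ v (σ : Set ι))
    (x y : ι → ℝ) (h : ∑ i ∈ σ, x i • v i = ∑ i ∈ σ, y i • v i) : ∀ i ∈ σ, x i = y i := by
  rw [linearIndepOn_finset_iff] at hσ
  intro i hi
  have h1 := hσ (fun i => x i - y i) (by
    simp only [sub_smul, Finset.sum_sub_distrib, h, sub_self]) i hi
  linarith

omit [Fintype ι] [Fintype κ] in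
/-- The comparison lemma. -/
lemma height_le (v : ι → κ → ℝ) (h : ι → ℝ) (τ σ σ' : Finset ι)
    (hσ : UpperOn v h τ σ) (hfull : ∀ l ∈ τ, v l ∈ Submodule.span ℝ (v '' (σ : Set ι)))
    (hσ' : σ' ⊆ τ) (x x' : ι → ℝ) (hx' : ∀ i ∈ σ', 0 < x' i)
    (he : ∑ i ∈ σ, x i • v i = ∑ i ∈ σ', x' i • v i) :
    ∑ i ∈ σ', x' i * h i ≤ ∑ i ∈ σ, x i * h i ∧
      (∑ i ∈ σ, x i * h i ≤ ∑ i ∈ σ', x' i * h i → σ' ⊆ σ) := by
  have hex : ∀ l : ι, ∃ β : ι → ℝ, l ∈ τ → v l = ∑ i ∈ σ, β i • v i := by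
    intro l
    by_cases hl : l ∈ τ
    · obtain ⟨β, hβ⟩ := (mem_span_iff v σ (v l)).mp (hfull l hl)
      exact ⟨β, fun _ => hβ⟩
    · exact ⟨0, fun h => absurd h hl⟩
  choose β hβ using hex
  have hcoef : ∀ i ∈ σ, x i = ∑ j ∈ σ', x' j * β j i := by
    apply coeff_unique v σ hσ.2.1
    rw [he]
    simp_rw [Finset.sum_smul]
    rw [Finset.sum_comm]
    refine Finset.sum_congr rfl fun j hj => ?_
    rw [hβ j (hσ' hj), Finset.smul_sum]
    refine Finset.sum_congr rfl fun i _ => ?_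
    rw [smul_smul]
  have hsum : ∑ i ∈ σ, x i * h i = ∑ j ∈ σ', x' j * ∑ i ∈ σ, β j i * h i := by
    rw [Finset.sum_congr rfl (fun i hi => by rw [hcoef i hi, Finset.sum_mul])]
    rw [Finset.sum_comm]
    refine Finset.sum_congr rfl fun j _ => ?_
    rw [Finset.mul_sum]
    refine Finset.sum_congr rfl fun i _ => ?_
    ring
  have hle : ∀ j ∈ σ', x' j * h j ≤ x' j * ∑ i ∈ σ, β j i * h i := by
    intro j hj
    refine mul_le_mul_of_nonneg_left ?_ (hx' j hj).le
    by_cases hjσ : j ∈ σ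
    · have h1 : ∀ i ∈ σ, β j i = if i = j then 1 else 0 := by
        apply coeff_unique v σ hσ.2.1
        rw [← hβ j (hσ' hj)]
        simp [hjσ]
      rw [Finset.sum_congr rfl (fun i hi => by rw [h1 i hi])]
      simp [hjσ]
    · exact (hσ.2.2 j (hσ' hj) hjσ (β j) (hβ j (hσ' hj))).le
  refine ⟨?_, ?_⟩
  · rw [hsum]
    exact Finset.sum_le_sum hle
  · intro hge j hj
    by_contra hjσ
    have hlt : ∑ j ∈ σ', x' j * h j < ∑ j ∈ σ', x' j * ∑ i ∈ σ, β j i * h i := by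
      refine Finset.sum_lt_sum hle ⟨j, hj, ?_⟩
      exact mul_lt_mul_of_pos_left
        (hσ.2.2 j (hσ' hj) hjσ (β j) (hβ j (hσ' hj))) (hx' j hj)
    linarith

omit [Fintype ι] [Fintype κ] in
/-- Open cones of distinct full upper simplices are disjoint. -/
theorem disjoint_oCone (v : ι → κ → ℝ) (h : ι → ℝ) (τ σ σ' : Finset ι)
    (hσ : UpperOn v h τ σ) (hfull : ∀ l ∈ τ, v l ∈ Submodule.span ℝ (v '' (σ : Set ι)))
    (hσ' : UpperOn v h τ σ') (hfull' : ∀ l ∈ τ, v l ∈ Submodule.span ℝ (v '' (σ' : Set ι)))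
    (hne : σ ≠ σ') : Disjoint (oCone v σ) (oCone v σ') := by
  rw [Set.disjoint_left]
  rintro y ⟨x, hx, hy⟩ ⟨x', hx', hy'⟩
  have he : ∑ i ∈ σ, x i • v i = ∑ i ∈ σ', x' i • v i := by rw [← hy, ← hy']
  obtain ⟨h1, h2⟩ := height_le v h τ σ σ' hσ hfull hσ'.1 x x' hx' he
  obtain ⟨h3, h4⟩ := height_le v h τ σ' σ hσ' hfull' hσ.1 x' x hx he.symm
  exact hne (Finset.Subset.antisymm (h4 h1) (h2 h3))

omit [Fintype κ] in
/-- The linear programming step. -/
theorem exists_upper (v : ι → κ → ℝ) (h : ι → ℝ) (τ : Finset ι) (ℓ : (κ → ℝ) →ₗ[ℝ] ℝ)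
    (hℓ : ∀ i ∈ τ, 0 < ℓ (v i)) (hgen : GenericOn v h τ) (y : κ → ℝ) (hy : y ∈ cCone v τ) :
    ∃ σ, UpperOn v h τ σ ∧ y ∈ oCone v σ := by
  classical
  -- the feasible set
  let K : Set (ι → ℝ) := {x | (∀ i, 0 ≤ x i) ∧ (∀ i, i ∉ τ → x i = 0) ∧ ∑ i, x i • v i = y}
  have hKne : K.Nonempty := by
    obtain ⟨x, hx, hxy⟩ := hy
    refine ⟨fun i => if i ∈ τ then x i else 0, fun i => ?_, fun i hi => ?_, ?_⟩
    · by_cases hi : i ∈ τ
      · simp only [hi, if_true]; exact hx i hi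
      · simp [hi]
    · simp [hi]
    · rw [hxy]
      simp only [ite_smul, zero_smul]
      rw [Finset.sum_ite_mem, Finset.univ_inter]
  have hKcl : IsClosed K := by
    have e : K = (⋂ i, {x : ι → ℝ | 0 ≤ x i}) ∩ ((⋂ i, {x : ι → ℝ | i ∉ τ → x i = 0}) ∩
        {x : ι → ℝ | ∑ i, x i • v i = y}) := by
      ext x; simp [K]
    rw [e]
    refine (isClosed_iInter fun i => isClosed_le continuous_const (continuous_apply i)).inter
      ((isClosed_iInter fun i => ?_).inter ?_)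
    · by_cases hi : i ∈ τ
      · simp [hi]
      · simp only [hi, not_false_eq_true, true_imp_iff]
        exact isClosed_eq (continuous_apply i) continuous_const
    · refine isClosed_eq ?_ continuous_const
      exact continuous_finsetSum _ fun i _ => (continuous_apply i).smul continuous_const
  have hKbd : K ⊆ Set.pi Set.univ (fun i => Set.Icc 0 (if i ∈ τ then ℓ y / ℓ (v i) else 0)) := by
    intro x hx i _
    refine ⟨hx.1 i, ?_⟩
    by_cases hi : i ∈ τ
    · simp only [hi, if_true]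
      rw [le_div_iff₀ (hℓ i hi), ← hx.2.2, map_sum]
      simp only [map_smul, smul_eq_mul]
      refine Finset.single_le_sum (f := fun i => x i * ℓ (v i)) (fun j _ => ?_)
        (Finset.mem_univ i)
      by_cases hj : j ∈ τ
      · exact mul_nonneg (hx.1 j) (hℓ j hj).le
      · simp [hx.2.1 j hj]
    · simp only [hi, if_false]
      exact (hx.2.1 i hi).le
  have hKc : IsCompact K :=
    (isCompact_univ_pi fun i => isCompact_Icc).of_isClosed_subset hKcl hKbd
  obtain ⟨x, hxK, hmax⟩ := hKc.exists_isMaxOn hKne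
    (f := fun x : ι → ℝ => ∑ i, x i * h i) (by fun_prop)
  -- the support
  set σ : Finset ι := univ.filter (fun i => 0 < x i) with hσdef
  have hσ0 : ∀ i, i ∉ σ → x i = 0 := by
    intro i hi
    rw [hσdef, Finset.mem_filter] at hi
    push Not at hi
    exact le_antisymm (hi (Finset.mem_univ i)) (hxK.1 i)
  have hσpos : ∀ i ∈ σ, 0 < x i := fun i hi => (Finset.mem_filter.mp hi).2
  have hστ : σ ⊆ τ := by
    intro i hi
    by_contra h'
    exact (hσpos i hi).ne' (hxK.2.1 i h')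
  -- moving in a direction
  have hmove : ∀ (s : Finset ι) (l : ι) (β : ι → ℝ), s ⊆ σ → l ∈ τ → l ∉ s →
      v l = ∑ i ∈ s, β i • v i → ∀ t : ℝ, 0 ≤ x l + t →
      (∀ i ∈ s, 0 ≤ x i - t * β i) → t * (h l - ∑ i ∈ s, β i * h i) ≤ 0 := by
    intro s l β hs hl hls hv t ht hts
    let d : ι → ℝ := fun i => if i = l then 1 else if i ∈ s then - β i else 0
    have hdl : ∀ (w : ι → κ → ℝ), ∑ i, d i • w i = w l - ∑ i ∈ s, β i • w i := by
      intro w
      have : ∀ i, d i • w i = (if i = l then w i else 0) + (if i ∈ s then (- β i) • w i else 0) := by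
        intro i
        simp only [d]
        by_cases h1 : i = l
        · subst h1; simp [hls]
        · by_cases h2 : i ∈ s
          · simp [h1, h2]
          · simp [h1, h2]
      simp_rw [this]
      rw [Finset.sum_add_distrib, Finset.sum_ite_eq' univ l, Finset.sum_ite_mem, Finset.univ_inter]
      simp [sub_eq_add_neg]
    have hdh : ∑ i, d i * h i = h l - ∑ i ∈ s, β i * h i := by
      have : ∀ i, d i * h i = (if i = l then h i else 0) + (if i ∈ s then (- β i) * h i else 0) := by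
        intro i
        simp only [d]
        by_cases h1 : i = l
        · subst h1; simp [hls]
        · by_cases h2 : i ∈ s
          · simp [h1, h2]
          · simp [h1, h2]
      simp_rw [this]
      rw [Finset.sum_add_distrib, Finset.sum_ite_eq' univ l, Finset.sum_ite_mem, Finset.univ_inter]
      simp [sub_eq_add_neg]
    have hfeas : (fun i => x i + t * d i) ∈ K := by
      refine ⟨fun i => ?_, fun i hi => ?_, ?_⟩
      · simp only [d]
        by_cases h1 : i = l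
        · subst h1; simpa using ht
        · by_cases h2 : i ∈ s
          · have := hts i h2
            simp only [h1, if_false, h2, if_true]; linarith
          · simp only [h1, if_false, h2]; linarith [hxK.1 i]
      · have h1 : i ≠ l := fun h => hi (h ▸ hl)
        have h2 : i ∉ s := fun h => hi (hστ (hs h))
        simp only [d, h1, if_false, h2, mul_zero, add_zero]
        exact hxK.2.1 i hi
      · simp_rw [add_smul, Finset.sum_add_distrib, mul_smul, ← Finset.smul_sum]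
        rw [hdl v, hv, sub_self, smul_zero, add_zero]
        exact hxK.2.2
    have h3 := isMaxOn_iff.mp hmax _ hfeas
    have h4 : ∑ i, (x i + t * d i) * h i = ∑ i, x i * h i + t * ∑ i, d i * h i := by
      rw [Finset.mul_sum, ← Finset.sum_add_distrib]
      exact Finset.sum_congr rfl fun i _ => by ring
    rw [h4, hdh] at h3
    linarith
  -- small steps
  have hstep : ∀ (s : Finset ι) (β : ι → ℝ), s ⊆ σ → ∃ t : ℝ, 0 < t ∧
      ∀ i ∈ s, t * |β i| ≤ x i := by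
    intro s β hs
    induction s using Finset.induction_on with
    | empty => exact ⟨1, one_pos, by simp⟩
    | insert a s ha ih =>
      obtain ⟨t, ht, hts⟩ := ih (fun i hi => hs (Finset.mem_insert_of_mem hi))
      have hxa := hσpos a (hs (Finset.mem_insert_self a s))
      refine ⟨min t (x a / (|β a| + 1)), lt_min ht (by positivity), ?_⟩
      intro i hi
      rcases Finset.mem_insert.mp hi with rfl | hi
      · calc min t (x i / (|β i| + 1)) * |β i| ≤ x i / (|β i| + 1) * |β i| := by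
              gcongr; exact min_le_right _ _
          _ ≤ x i / (|β i| + 1) * (|β i| + 1) := by gcongr; linarith
          _ = x i := by field_simp
      · exact (mul_le_mul_of_nonneg_right (min_le_left _ _) (abs_nonneg _)).trans (hts i hi)
  -- independence of the support
  have hind : LinearIndepOn ℝ v (σ : Set ι) := by
    let PP : Finset (Finset ι) := σ.powerset.filter fun s => LinearIndepOn ℝ v (s : Set ι)
    have hPP : PP.Nonempty := ⟨∅, by simp [PP]⟩
    obtain ⟨s, hsPP, hsmax⟩ := Finset.exists_max_image PP Finset.card hPP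
    obtain ⟨hsσ, hsind⟩ := Finset.mem_filter.mp hsPP
    rw [Finset.mem_powerset] at hsσ
    by_contra hnot
    have hsne : s ≠ σ := fun h => hnot (h ▸ hsind)
    obtain ⟨l, hlσ, hls⟩ := Finset.exists_of_ssubset (lt_of_le_of_ne hsσ hsne)
    have hlspan : v l ∈ Submodule.span ℝ (v '' (s : Set ι)) := by
      by_contra hns
      have h1 : LinearIndepOn ℝ v ((insert l s : Finset ι) : Set ι) := by
        rw [Finset.coe_insert, linearIndepOn_insert (by simpa using hls)]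
        exact ⟨hsind, hns⟩
      have h2 : insert l s ∈ PP := by
        rw [Finset.mem_filter, Finset.mem_powerset]
        exact ⟨Finset.insert_subset hlσ hsσ, h1⟩
      have h3 := hsmax _ h2
      rw [Finset.card_insert_of_notMem hls] at h3
      omega
    obtain ⟨β, hβ⟩ := (mem_span_iff v s (v l)).mp hlspan
    have hne := hgen s (hsσ.trans hστ) hsind l (hστ hlσ) hls β hβ
    obtain ⟨t, ht, hts⟩ := hstep s β hsσ
    have hxl := hσpos l hlσ
    set t' := min t (x l) with ht'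
    have ht'0 : 0 < t' := lt_min ht hxl
    have hts' : ∀ i ∈ s, t' * |β i| ≤ x i := fun i hi =>
      (mul_le_mul_of_nonneg_right (min_le_left _ _) (abs_nonneg _)).trans (hts i hi)
    have h1 := hmove s l β hsσ (hστ hlσ) hls hβ t' (by linarith) (fun i hi => by
      have h5 := hts' i hi
      have h6 : t' * β i ≤ t' * |β i| := mul_le_mul_of_nonneg_left (le_abs_self _) ht'0.le
      linarith)
    have h2 := hmove s l β hsσ (hστ hlσ) hls hβ (-t') (by
      have := min_le_right t (x l); linarith) (fun i hi => by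
      have h5 := hts' i hi
      have h6 : t' * (-β i) ≤ t' * |β i| := mul_le_mul_of_nonneg_left (neg_le_abs _) ht'0.le
      linarith)
    have h3 : h l - ∑ i ∈ s, β i * h i = 0 := by
      have h4 : t' * (h l - ∑ i ∈ s, β i * h i) = 0 := by linarith
      rcases mul_eq_zero.mp h4 with h5 | h5
      · exact absurd h5 ht'0.ne'
      · exact h5
    exact hne (by linarith)
  have hup : ∀ l ∈ τ, l ∉ σ → ∀ β : ι → ℝ, v l = ∑ i ∈ σ, β i • v i →
      h l < ∑ i ∈ σ, β i * h i := by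
    intro l hl hlσ β hβ
    obtain ⟨t, ht, hts⟩ := hstep σ β subset_rfl
    have h1 := hmove σ l β subset_rfl hl hlσ hβ t (by linarith [hxK.1 l]) (fun i hi => by
      have h5 := hts i hi
      have h6 : t * β i ≤ t * |β i| := mul_le_mul_of_nonneg_left (le_abs_self _) ht.le
      linarith)
    have h2 : h l - ∑ i ∈ σ, β i * h i ≤ 0 := by
      by_contra hcon
      push Not at hcon
      exact absurd (mul_pos ht hcon) (not_lt.mpr h1)
    exact lt_of_le_of_ne (by linarith) (hgen σ hστ hind l hl hlσ β hβ)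
  refine ⟨σ, ⟨hστ, hind, hup⟩, x, hσpos, ?_⟩
  rw [← hxK.2.2]
  symm
  refine Finset.sum_subset (Finset.subset_univ σ) fun i _ hi => ?_
  rw [hσ0 i hi, zero_smul]

omit [Fintype κ] in
/-- A point outside all spans of smaller rank lies in the open cone of a full upper simplex. -/
theorem exists_upper_full (v : ι → κ → ℝ) (h : ι → ℝ) (τ : Finset ι) (ℓ : (κ → ℝ) →ₗ[ℝ] ℝ)
    (hℓ : ∀ i ∈ τ, 0 < ℓ (v i)) (hgen : GenericOn v h τ) (y : κ → ℝ) (hy : y ∈ cCone v τ)
    (hygen : ∀ σ ⊆ τ, y ∈ Submodule.span ℝ (v '' (σ : Set ι)) →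
      ∀ l ∈ τ, v l ∈ Submodule.span ℝ (v '' (σ : Set ι))) :
    ∃ σ, UpperOn v h τ σ ∧ (∀ l ∈ τ, v l ∈ Submodule.span ℝ (v '' (σ : Set ι))) ∧
      y ∈ oCone v σ := by
  obtain ⟨σ, hσ, hyσ⟩ := exists_upper v h τ ℓ hℓ hgen y hy
  refine ⟨σ, hσ, hygen σ hσ.1 ?_, hyσ⟩
  obtain ⟨x, -, hx⟩ := hyσ
  exact (mem_span_iff v σ y).mpr ⟨x, hx⟩

lemma dense_compl_submodule {E : Type*} [NormedAddCommGroup E] [NormedSpace ℝ E]
    [FiniteDimensional ℝ E] (P : Submodule ℝ E) (hP : P ≠ ⊤) :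
    IsOpen ((P : Set E)ᶜ) ∧ Dense ((P : Set E)ᶜ) := by
  refine ⟨(Submodule.closed_of_finiteDimensional P).isOpen_compl, ?_⟩
  rw [← interior_eq_empty_iff_dense_compl]
  by_contra h
  exact hP (Submodule.eq_top_of_nonempty_interior' P (Set.nonempty_iff_ne_empty.mpr h))

/-- Finitely many proper subspaces miss a point of every nonempty open set. -/
lemma exists_avoid {E : Type*} [NormedAddCommGroup E] [NormedSpace ℝ E]
    [FiniteDimensional ℝ E] {J : Type*} [Finite J] (P : J → Submodule ℝ E)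
    (hP : ∀ j, P j ≠ ⊤) (U : Set E) (hU : IsOpen U) (hUne : U.Nonempty) :
    ∃ c ∈ U, ∀ j, c ∉ P j := by
  have : Countable J := Finite.to_countable
  have hd : Dense (⋂ j, ((P j : Set E)ᶜ)) :=
    dense_iInter_of_isOpen (fun j => (dense_compl_submodule (P j) (hP j)).1)
      (fun j => (dense_compl_submodule (P j) (hP j)).2)
  obtain ⟨c, hcU, hc⟩ := hd.inter_open_nonempty U hU hUne
  exact ⟨c, hcU, fun j => by simpa using Set.mem_iInter.mp hc j⟩

omit [Fintype κ] in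
/-- Generic heights exist. -/
theorem exists_generic (v : ι → κ → ℝ) : ∃ h : ι → ℝ, ∀ τ, GenericOn v h τ := by
  classical
  let Bad : Finset ι × ι → Prop := fun p => LinearIndepOn ℝ v (p.1 : Set ι) ∧ p.2 ∉ p.1 ∧
    ∃ β : ι → ℝ, v p.2 = ∑ i ∈ p.1, β i • v i
  have hex : ∀ p : {p // Bad p}, ∃ β : ι → ℝ, v p.1.2 = ∑ i ∈ p.1.1, β i • v i := fun p => p.2.2.2
  choose β hβ using hex
  let P : {p // Bad p} → Submodule ℝ (ι → ℝ) := fun p =>
    LinearMap.ker ((LinearMap.proj p.1.2 : (ι → ℝ) →ₗ[ℝ] ℝ)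
      - ∑ i ∈ p.1.1, β p i • (LinearMap.proj i : (ι → ℝ) →ₗ[ℝ] ℝ))
  have hP : ∀ p, P p ≠ ⊤ := by
    intro p htop
    have h1 : (Pi.single p.1.2 1 : ι → ℝ) ∈ P p := by rw [htop]; trivial
    rw [LinearMap.mem_ker] at h1
    simp only [LinearMap.sub_apply, LinearMap.proj_apply, Pi.single_eq_same,
      LinearMap.sum_apply, LinearMap.smul_apply, smul_eq_mul] at h1
    have h2 : ∑ i ∈ p.1.1, β p i * (Pi.single p.1.2 (1 : ℝ) : ι → ℝ) i = 0 := by
      refine Finset.sum_eq_zero fun i hi => ?_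
      have : i ≠ p.1.2 := fun h => p.2.2.1 (h ▸ hi)
      rw [Pi.single_eq_of_ne this, mul_zero]
    rw [h2] at h1
    norm_num at h1
  obtain ⟨h, -, hh⟩ := exists_avoid P hP Set.univ isOpen_univ Set.univ_nonempty
  refine ⟨h, fun τ σ _ hσ l _ hlσ β' hβ' heq => ?_⟩
  have hb : Bad (σ, l) := ⟨hσ, hlσ, β', hβ'⟩
  refine hh ⟨(σ, l), hb⟩ ?_
  rw [LinearMap.mem_ker]
  simp only [LinearMap.sub_apply, LinearMap.proj_apply, LinearMap.sum_apply,
    LinearMap.smul_apply, smul_eq_mul]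
  have h1 := coeff_unique v σ hσ (β ⟨(σ, l), hb⟩) β' (by
    rw [← hβ ⟨(σ, l), hb⟩]; exact hβ')
  rw [heq]
  have h2 : ∑ i ∈ σ, β ⟨(σ, l), hb⟩ i * h i = ∑ i ∈ σ, β' i * h i :=
    Finset.sum_congr rfl fun i hi => by rw [h1 i hi]
  rw [h2]
  exact sub_self _

omit [DecidableEq ι] [Fintype κ] in
/-- A positive combination outside all spans of smaller rank. -/
lemma exists_interior (v : ι → κ → ℝ) (τ : Finset ι) :
    ∃ z ∈ cCone v τ, ∀ σ ⊆ τ, z ∈ Submodule.span ℝ (v '' (σ : Set ι)) →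
      ∀ l ∈ τ, v l ∈ Submodule.span ℝ (v '' (σ : Set ι)) := by
  classical
  let L : (ι → ℝ) →ₗ[ℝ] (κ → ℝ) :=
    ∑ i ∈ τ, (LinearMap.proj i : (ι → ℝ) →ₗ[ℝ] ℝ).smulRight (v i)
  have hL : ∀ c, L c = ∑ i ∈ τ, c i • v i := by
    intro c
    simp only [L, LinearMap.sum_apply, LinearMap.smulRight_apply, LinearMap.proj_apply]
  let Bad : Finset ι → Prop := fun σ => ∃ l ∈ τ, v l ∉ Submodule.span ℝ (v '' (σ : Set ι))
  let P : {σ // Bad σ} → Submodule ℝ (ι → ℝ) := fun σ =>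
    (Submodule.span ℝ (v '' (σ.1 : Set ι))).comap L
  have hP : ∀ σ, P σ ≠ ⊤ := by
    rintro ⟨σ, l, hl, hn⟩ htop
    have h1 : (Pi.single l 1 : ι → ℝ) ∈ P ⟨σ, l, hl, hn⟩ := by rw [htop]; trivial
    rw [Submodule.mem_comap, hL] at h1
    apply hn
    have h2 : ∑ i ∈ τ, (Pi.single l (1 : ℝ) : ι → ℝ) i • v i = v l := by
      rw [Finset.sum_eq_single l]
      · simp
      · intro i _ hi; rw [Pi.single_eq_of_ne hi, zero_smul]
      · intro h; exact absurd hl h
    rwa [h2] at h1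
  obtain ⟨c, hc, hcP⟩ := exists_avoid P hP (Set.pi Set.univ fun _ => Set.Ioi 0)
    (isOpen_set_pi Set.finite_univ fun _ _ => isOpen_Ioi)
    ⟨fun _ => 1, fun i _ => by simp⟩
  refine ⟨L c, ⟨c, fun i _ => (hc i (Set.mem_univ i)).le, hL c⟩, ?_⟩
  intro σ _ hz l hl
  by_contra hn
  exact hcP ⟨σ, l, hl, hn⟩ hz

omit [Fintype ι] [DecidableEq ι] [Fintype κ] in
lemma isClosed_cCone (v : ι → κ → ℝ) (σ : Finset ι) (hσ : LinearIndepOn ℝ v (σ : Set ι)) :
    IsClosed (cCone v σ) := by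
  classical
  let L : (σ → ℝ) →ₗ[ℝ] (κ → ℝ) :=
    ∑ i : σ, (LinearMap.proj i : (σ → ℝ) →ₗ[ℝ] ℝ).smulRight (v i)
  have hL : ∀ c, L c = ∑ i : σ, c i • v i := by
    intro c
    simp only [L, LinearMap.sum_apply, LinearMap.smulRight_apply, LinearMap.proj_apply]
  have hker : LinearMap.ker L = ⊥ := by
    rw [LinearMap.ker_eq_bot']
    intro c hc
    rw [hL] at hc
    have h1 : LinearIndependent ℝ (fun i : σ => v i) := hσ
    exact funext (Fintype.linearIndependent_iff.mp h1 c hc)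
  have hce := LinearMap.isClosedEmbedding_of_injective hker
  have himg : cCone v σ = L '' (Set.pi Set.univ fun _ => Set.Ici 0) := by
    ext y
    constructor
    · rintro ⟨x, hx, rfl⟩
      refine ⟨fun i => x i, fun i _ => hx i i.2, ?_⟩
      rw [hL]
      exact Finset.sum_coe_sort σ (fun i => x i • v i)
    · rintro ⟨c, hc, rfl⟩
      refine ⟨fun i => if h : i ∈ σ then c ⟨i, h⟩ else 0, fun i hi => ?_, ?_⟩
      · simp only [hi, dif_pos]; exact hc _ (Set.mem_univ _)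
      · rw [hL, ← Finset.sum_coe_sort σ]
        refine Finset.sum_congr rfl fun i _ => ?_
        simp
  rw [himg]
  exact hce.isClosedMap _ (isClosed_set_pi fun _ _ => isClosed_Ici)

/-- The closed cones of the full upper simplices cover the cone. -/
theorem cover_upper (v : ι → κ → ℝ) (h : ι → ℝ) (τ : Finset ι) (ℓ : (κ → ℝ) →ₗ[ℝ] ℝ)
    (hℓ : ∀ i ∈ τ, 0 < ℓ (v i)) (hgen : GenericOn v h τ) (y : κ → ℝ) (hy : y ∈ cCone v τ) :
    ∃ σ, UpperOn v h τ σ ∧ (∀ l ∈ τ, v l ∈ Submodule.span ℝ (v '' (σ : Set ι))) ∧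
      y ∈ cCone v σ := by
  classical
  obtain ⟨z, hz, hzgen⟩ := exists_interior v τ
  let F : Set (κ → ℝ) := ⋃ σ : {σ : Finset ι // UpperOn v h τ σ ∧
    ∀ l ∈ τ, v l ∈ Submodule.span ℝ (v '' (σ : Set ι))}, cCone v σ.1
  have hF : IsClosed F := isClosed_iUnion_of_finite fun σ => isClosed_cCone v σ.1 σ.2.1.2.1
  -- bad times
  let Bad : {σ : Finset ι // ∃ l ∈ τ, v l ∉ Submodule.span ℝ (v '' (σ : Set ι))} → Set ℝ :=
    fun σ => {t | y + t • z ∈ Submodule.span ℝ (v '' (σ.1 : Set ι)) ∧ σ.1 ⊆ τ}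
  have hBad : (⋃ σ, Bad σ).Finite := by
    refine Set.finite_iUnion fun σ => Set.Subsingleton.finite ?_
    rintro t ⟨ht, hsub⟩ t' ⟨ht', -⟩
    by_contra hne
    have h1 : (t - t') • z ∈ Submodule.span ℝ (v '' (σ.1 : Set ι)) := by
      have h2 := Submodule.sub_mem _ ht ht'
      rwa [add_sub_add_left_eq_sub, ← sub_smul] at h2
    have h3 : z ∈ Submodule.span ℝ (v '' (σ.1 : Set ι)) := by
      have h4 := Submodule.smul_mem _ (t - t')⁻¹ h1
      rwa [smul_smul, inv_mul_cancel₀ (sub_ne_zero.mpr hne), one_smul] at h4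
    obtain ⟨l, hl, hn⟩ := σ.2
    exact hn (hzgen σ.1 hsub h3 l hl)
  have hev : ∀ᶠ t in nhdsWithin (0 : ℝ) (Set.Ioi 0), y + t • z ∈ F := by
    have h1 : ∀ᶠ t in nhds (0 : ℝ), t ∉ (⋃ σ, Bad σ) \ {0} := by
      have hc : IsClosed ((⋃ σ, Bad σ) \ {0}) := (hBad.subset Set.sdiff_subset).isClosed
      exact hc.isOpen_compl.mem_nhds (by simp)
    have h2 : ∀ᶠ t in nhdsWithin (0 : ℝ) (Set.Ioi 0), t ∈ Set.Ioi (0 : ℝ) :=
      self_mem_nhdsWithin
    filter_upwards [h2, nhdsWithin_le_nhds h1] with t ht ht'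
    have ht0 : (0 : ℝ) < t := ht
    have hnb : t ∉ ⋃ σ, Bad σ := fun hb => ht' ⟨hb, ht0.ne'⟩
    have hyt : y + t • z ∈ cCone v τ := by
      obtain ⟨x, hx, hxy⟩ := hy
      obtain ⟨x', hx', hxz⟩ := hz
      refine ⟨fun i => x i + t * x' i, fun i hi =>
        add_nonneg (hx i hi) (mul_nonneg ht0.le (hx' i hi)), ?_⟩
      rw [hxy, hxz, Finset.smul_sum, ← Finset.sum_add_distrib]
      refine Finset.sum_congr rfl fun i _ => ?_
      rw [add_smul, mul_smul]
    obtain ⟨σ, hσ, hfull, x, hx, hxy⟩ := exists_upper_full v h τ ℓ hℓ hgen _ hyt (by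
      intro σ hσ hmem l hl
      by_contra hn
      exact hnb (Set.mem_iUnion.mpr ⟨⟨σ, l, hl, hn⟩, hmem, hσ⟩))
    exact Set.mem_iUnion.mpr ⟨⟨σ, hσ, hfull⟩, x, fun i hi => (hx i hi).le, hxy⟩
  have htend : Filter.Tendsto (fun t : ℝ => y + t • z) (nhdsWithin (0 : ℝ) (Set.Ioi 0))
      (nhds y) := by
    have h1 : Continuous (fun t : ℝ => y + t • z) := by fun_prop
    have h2 := (h1.tendsto 0).mono_left (nhdsWithin_le_nhds (s := Set.Ioi 0))
    simpa using h2
  have hyF : y ∈ F := hF.mem_of_tendsto htend hev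
  obtain ⟨⟨σ, hσ, hfull⟩, hyσ⟩ := Set.mem_iUnion.mp hyF
  exact ⟨σ, hσ, hfull, hyσ⟩

/-- **Triangulations of pointed configurations exist.** -/
theorem exists_triangulation (v : ι → κ → ℝ) (τ : Finset ι) (ℓ : (κ → ℝ) →ₗ[ℝ] ℝ)
    (hℓ : ∀ i ∈ τ, 0 < ℓ (v i)) :
    ∃ S : Finset (Finset ι), (∀ σ ∈ S, σ ⊆ τ) ∧
      (∀ σ ∈ S, LinearIndepOn ℝ v (σ : Set ι)) ∧
      (∀ σ ∈ S, Submodule.span ℝ (v '' (σ : Set ι)) = Submodule.span ℝ (v '' (τ : Set ι))) ∧
      (∀ σ ∈ S, ∀ σ' ∈ S, σ ≠ σ' → Disjoint (oCone v σ) (oCone v σ')) ∧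
      ∀ y ∈ cCone v τ, ∃ σ ∈ S, y ∈ cCone v σ := by
  classical
  obtain ⟨h, hh⟩ := exists_generic v
  let S : Finset (Finset ι) := univ.filter fun σ => UpperOn v h τ σ ∧
    ∀ l ∈ τ, v l ∈ Submodule.span ℝ (v '' (σ : Set ι))
  have hS : ∀ σ, σ ∈ S ↔ UpperOn v h τ σ ∧
      ∀ l ∈ τ, v l ∈ Submodule.span ℝ (v '' (σ : Set ι)) := fun σ => by simp [S]
  refine ⟨S, fun σ hσ => ((hS σ).mp hσ).1.1, fun σ hσ => ((hS σ).mp hσ).1.2.1, ?_, ?_, ?_⟩
  · intro σ hσ
    obtain ⟨h1, h2⟩ := (hS σ).mp hσ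
    apply le_antisymm
    · exact Submodule.span_mono (Set.image_mono (by exact_mod_cast h1.1))
    · rw [Submodule.span_le]
      rintro _ ⟨l, hl, rfl⟩
      exact h2 l hl
  · intro σ hσ σ' hσ' hne
    obtain ⟨h1, h2⟩ := (hS σ).mp hσ
    obtain ⟨h3, h4⟩ := (hS σ').mp hσ'
    exact disjoint_oCone v h τ σ σ' h1 h2 h3 h4 hne
  · intro y hy
    obtain ⟨σ, h1, h2, h3⟩ := cover_upper v h τ ℓ hℓ (hh τ) y hy
    exact ⟨σ, (hS σ).mpr ⟨h1, h2⟩, h3⟩

end Pool.Agent.H60.RegTri
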