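import Pool.Agent.H22.GDefs
import Pool.Agent.H60.RegTri
import Pool.Agent.H60.Gordan

/-! # Face triangulations and simplicial cone decompositions exist -/

set_option autoImplicit false

open Finset

namespace Pool.Agent.H60.ConeExist

open Pool.Agent.H22 Pool.Agent.H60.RegTri

variable {n r : ℕ}

lemma card_eq_finrank {ι κ : Type*} [Fintype ι] [DecidableEq ι] (v : ι → κ → ℝ) (σ : Finset ι)
    (hσ : LinearIndepOn ℝ v (σ : Set ι)) :
    σ.card = Module.finrank ℝ (Submodule.span ℝ (v '' (σ : Set ι))) := by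
  have h1 : LinearIndependent ℝ (fun i : σ => v i) := hσ
  have h2 := finrank_span_eq_card h1
  rw [Fintype.card_coe] at h2
  rw [← h2, Set.image_eq_range]
  rfl

lemma elim_mem_oCone (a : Fin r → (Fin n →₀ ℕ)) (σ : Finset (Fin r)) (p : Fin n → ℝ)
    (x : Fin r → ℝ) (hx1 : ∑ i ∈ σ, x i = 1) (hp : p = ∑ i ∈ σ, x i • pointR a i) :
    (Sum.elim (fun _ => 1) p : Unit ⊕ Fin n → ℝ) = ∑ i ∈ σ, x i • rowR a i := by
  funext k
  rw [Finset.sum_apply]
  rcases k with u | j
  · simp only [Sum.elim_inl, Pi.smul_apply, rowR, smul_eq_mul, mul_one]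
    exact hx1.symm
  · simp only [Sum.elim_inr, Pi.smul_apply, rowR, smul_eq_mul]
    rw [hp, Finset.sum_apply]
    rfl

/-- Face triangulations exist. -/
theorem exists_faceTriang (a : Fin r → (Fin n →₀ ℕ)) (τ : Finset (Fin r)) :
    Nonempty (FaceTriang a τ) := by
  classical
  obtain ⟨S, hsub, hind, hspan, hdisj, hcov⟩ := exists_triangulation (rowR a) τ
    (LinearMap.proj (Sum.inl ())) (fun i _ => by simp [rowR])
  refine ⟨⟨S, hsub, fun σ hσ => ?_, fun σ hσ => hind σ hσ, ?_, ?_⟩⟩
  · rw [card_eq_finrank (rowR a) σ (hind σ hσ), hspan σ hσ]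
    rfl
  · intro σ hσ σ' hσ' hne
    rw [Set.disjoint_left]
    rintro p ⟨x, hx, hx1, hp⟩ ⟨x', hx', hx1', hp'⟩
    have h1 := Set.disjoint_left.mp (hdisj σ hσ σ' hσ' hne)
    exact h1 ⟨x, hx, elim_mem_oCone a σ p x hx1 hp⟩ ⟨x', hx', elim_mem_oCone a σ' p x' hx1' hp'⟩
  · intro p hp
    have hconv : Convex ℝ {p : Fin n → ℝ |
        (Sum.elim (fun _ => 1) p : Unit ⊕ Fin n → ℝ) ∈ cCone (rowR a) τ} := by
      rintro p ⟨x, hx, hp⟩ q ⟨x', hx', hq⟩ s t hs ht hst
      refine ⟨fun i => s * x i + t * x' i, fun i hi =>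
        add_nonneg (mul_nonneg hs (hx i hi)) (mul_nonneg ht (hx' i hi)), ?_⟩
      have h1 : (Sum.elim (fun _ => 1) (s • p + t • q) : Unit ⊕ Fin n → ℝ)
          = s • (Sum.elim (fun _ => 1) p : Unit ⊕ Fin n → ℝ)
            + t • (Sum.elim (fun _ => 1) q : Unit ⊕ Fin n → ℝ) := by
        funext k
        rcases k with u | j
        · simp [hst]
        · simp
      rw [h1, hp, hq, Finset.smul_sum, Finset.smul_sum, ← Finset.sum_add_distrib]
      refine Finset.sum_congr rfl fun i _ => ?_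
      rw [smul_smul, smul_smul, ← add_smul]
    have hsubs : pointR a '' (τ : Set (Fin r)) ⊆ {p : Fin n → ℝ |
        (Sum.elim (fun _ => 1) p : Unit ⊕ Fin n → ℝ) ∈ cCone (rowR a) τ} := by
      rintro _ ⟨i, hi, rfl⟩
      refine ⟨Pi.single i 1, fun j _ => ?_, ?_⟩
      · by_cases h : j = i
        · subst h; simp
        · rw [Pi.single_eq_of_ne h]
      · rw [Finset.sum_eq_single i]
        · simp only [Pi.single_eq_same, one_smul]
          funext k; rcases k with u | j <;> simp [rowR, pointR]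
        · intro j _ hj; rw [Pi.single_eq_of_ne hj, zero_smul]
        · intro h; exact absurd hi h
    have hmem := convexHull_min hsubs hconv hp
    obtain ⟨σ, hσ, x, hx, hxe⟩ := hcov _ hmem
    refine ⟨σ, hσ, ?_⟩
    have hx1 : ∑ i ∈ σ, x i = 1 := by
      have h1 := congrFun hxe (Sum.inl ())
      rw [Finset.sum_apply] at h1
      simp only [Sum.elim_inl, Pi.smul_apply, rowR, smul_eq_mul, mul_one] at h1
      exact h1.symm
    have hxp : p = ∑ i ∈ σ, x i • pointR a i := by
      funext j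
      have h1 := congrFun hxe (Sum.inr j)
      rw [Finset.sum_apply] at h1
      simp only [Sum.elim_inr, Pi.smul_apply, rowR, smul_eq_mul] at h1
      rw [h1, Finset.sum_apply]
      rfl
    rw [hxp]
    exact (convex_convexHull ℝ _).sum_mem hx hx1
      (fun i hi => subset_convexHull ℝ _ ⟨i, hi, rfl⟩)

/-! ### Upper simplices in the sense of `UpperS` -/

/-- Under the flatness hypothesis, `UpperS` for subsets of `τ` is `UpperOn` relative to `τ`. -/
theorem upperS_iff_upperOn (a : Fin r → (Fin n →₀ ℕ)) (h : Fin r → ℝ) (τ σ : Finset (Fin r))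
    (hσ : σ ⊆ τ)
    (hflat : ∀ l, rowR a l ∈ Submodule.span ℝ (rowR a '' (τ : Set (Fin r))) → l ∈ τ) :
    UpperS a h σ ↔ UpperOn (rowR a) h τ σ := by
  classical
  constructor
  · rintro ⟨h1, h2⟩
    refine ⟨hσ, h1, fun l _ hl β hβ => ?_⟩
    have h3 := h2 l hl (fun i => β i) (by
      rw [hβ]; exact (Finset.sum_coe_sort σ (fun i => β i • rowR a i)).symm)
    rwa [Finset.sum_coe_sort σ (fun i => β i * h i)] at h3
  · rintro ⟨-, h1, h2⟩
    refine ⟨h1, fun l hl β hβ => ?_⟩
    let β' : Fin r → ℝ := fun i => if h : i ∈ σ then β ⟨i, h⟩ else 0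
    have hβ1 : ∑ i : σ, β i • rowR a i = ∑ i ∈ σ, β' i • rowR a i := by
      rw [← Finset.sum_coe_sort σ]
      refine Finset.sum_congr rfl fun i _ => ?_
      simp [β']
    have hβ2 : ∑ i : σ, β i * h i = ∑ i ∈ σ, β' i * h i := by
      rw [← Finset.sum_coe_sort σ]
      refine Finset.sum_congr rfl fun i _ => ?_
      simp [β']
    have hlτ : l ∈ τ := by
      apply hflat
      rw [hβ, hβ1]
      exact Submodule.sum_mem _ fun i hi => Submodule.smul_mem _ _
        (Submodule.subset_span ⟨i, hσ hi, rfl⟩)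
    rw [hβ2]
    exact h2 l hlτ hl β' (by rw [hβ, hβ1])

/-! ### Cones -/

/-- Finite generation of `D_τ`. -/
theorem exists_cone_generators (a : Fin r → (Fin n →₀ ℕ)) (τ : Finset (Fin r)) :
    ∃ (J : Type) (_ : Fintype J) (_ : DecidableEq J) (w : J → Fin n → ℕ),
      (∀ j, toReal (w j) ∈ minCone a τ) ∧ (∀ j, w j ≠ 0) ∧
      ∀ k ∈ minCone a τ, ∃ c : J → ℝ, (∀ j, 0 ≤ c j) ∧ k = ∑ j, c j • toReal (w j) := by
  classical
  let E : Fin r × Fin r → (Fin n ⊕ (Fin r × Fin r)) → ℤ := fun p =>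
    Sum.elim (fun j => if p.1 ∈ τ then (a p.2 j : ℤ) - (a p.1 j : ℤ) else 0)
      (fun q => if q = p then -1 else 0)
  obtain ⟨J, hJ1, hJ2, g, hgE, hg0, hgen⟩ := Gordan.exists_generators E
  have hsum : ∀ (p : Fin r × Fin r) (z : Fin n ⊕ (Fin r × Fin r) → ℝ),
      ∑ i, (E p i : ℝ) * z i = (∑ j, (if p.1 ∈ τ then (a p.2 j : ℝ) - (a p.1 j : ℝ) else 0)
        * z (Sum.inl j)) - z (Sum.inr p) := by
    intro p z
    rw [Fintype.sum_sum_type]
    have h2 : ∑ q, (E p (Sum.inr q) : ℝ) * z (Sum.inr q) = - z (Sum.inr p) := by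
      rw [Finset.sum_eq_single p]
      · simp [E]
      · intro q _ hq; simp [E, hq]
      · intro h; exact absurd (Finset.mem_univ p) h
    rw [h2, ← sub_eq_add_neg]
    congr 1
    refine Finset.sum_congr rfl fun j _ => ?_
    congr 1
    simp only [E, Sum.elim_inl]
    split_ifs
    · push_cast; rfl
    · simp
  have hgR : ∀ j p, (∑ i, (if p.1 ∈ τ then (a p.2 i : ℝ) - (a p.1 i : ℝ) else 0)
      * (g j (Sum.inl i) : ℝ)) = (g j (Sum.inr p) : ℝ) := by
    intro j p
    have h1 := hsum p (fun i => (g j i : ℝ))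
    have h2 : ∑ i, (E p i : ℝ) * (g j i : ℝ) = 0 := by exact_mod_cast hgE j p
    rw [h2] at h1
    linarith
  refine ⟨J, hJ1, hJ2, fun j i => g j (Sum.inl i), ?_, ?_, ?_⟩
  · intro j
    refine ⟨fun i => Nat.cast_nonneg _, fun i hi l => ?_⟩
    have h1 := hgR j (i, l)
    simp only [hi, if_true, sub_mul, Finset.sum_sub_distrib] at h1
    have h2 : (0 : ℝ) ≤ g j (Sum.inr (i, l)) := Nat.cast_nonneg _
    simp only [toReal]
    linarith
  · intro j h0
    apply hg0 j
    have h0' : ∀ i, g j (Sum.inl i) = 0 := fun i => congrFun h0 i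
    funext i
    rcases i with i | p
    · exact h0' i
    · have h1 := hgR j p
      simp only [h0', Nat.cast_zero, mul_zero, Finset.sum_const_zero] at h1
      exact_mod_cast h1.symm
  · intro k hk
    let z : Fin n ⊕ (Fin r × Fin r) → ℝ := Sum.elim k (fun p =>
      ∑ i, (if p.1 ∈ τ then (a p.2 i : ℝ) - (a p.1 i : ℝ) else 0) * k i)
    have hz0 : ∀ i, 0 ≤ z i := by
      rintro (i | p)
      · exact hk.1 i
      · simp only [z, Sum.elim_inr]
        by_cases hp : p.1 ∈ τ
        · simp only [hp, if_true, sub_mul, Finset.sum_sub_distrib]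
          have := hk.2 p.1 hp p.2
          linarith
        · simp [hp]
    have hzE : ∀ p, ∑ i, (E p i : ℝ) * z i = 0 := by
      intro p
      rw [hsum p z]
      simp [z]
    obtain ⟨c, hc0, hc⟩ := hgen z hz0 hzE
    refine ⟨c, hc0, ?_⟩
    funext i
    rw [Finset.sum_apply]
    exact hc (Sum.inl i)

/-- The dimension of `D_τ` is at most `n + 1 - faceRank a τ`. -/
lemma finrank_span_minCone_le (a : Fin r → (Fin n →₀ ℕ)) (τ : Finset (Fin r)) (hτ : τ.Nonempty) :
    Module.finrank ℝ (Submodule.span ℝ (minCone a τ)) ≤ n + 1 - faceRank a τ := by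
  classical
  obtain ⟨i₀, hi₀⟩ := hτ
  set R := Submodule.span ℝ (rowR a '' (τ : Set (Fin r))) with hR
  have h1 := Subspace.finrank_add_finrank_dualAnnihilator_eq R
  have h2 : Module.finrank ℝ (Unit ⊕ Fin n → ℝ) = n + 1 := by
    rw [Module.finrank_fintype_fun_eq_card]
    simp [add_comm]
  rw [h2] at h1
  have h3 : Module.finrank ℝ R = faceRank a τ := rfl
  rw [h3] at h1
  -- the embedding
  let m : (Fin n → ℝ) →ₗ[ℝ] ℝ := ∑ j, (a i₀ j : ℝ) • (LinearMap.proj j)
  have hm : ∀ k, m k = ∑ j, (a i₀ j : ℝ) * k j := by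
    intro k
    simp only [m, LinearMap.sum_apply, LinearMap.smul_apply, LinearMap.proj_apply, smul_eq_mul]
  let Ψ : (Fin n → ℝ) →ₗ[ℝ] Module.Dual ℝ (Unit ⊕ Fin n → ℝ) :=
    { toFun := fun k => (- m k) • (LinearMap.proj (Sum.inl ()))
        + ∑ j, k j • (LinearMap.proj (Sum.inr j))
      map_add' := by
        intro k k'
        simp only [map_add, Pi.add_apply, add_smul, Finset.sum_add_distrib, neg_add]
        abel
      map_smul' := by
        intro c k
        simp only [map_smul, Pi.smul_apply, smul_eq_mul, RingHom.id_apply, smul_add,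
          Finset.smul_sum, smul_smul]
        congr 2
        ring }
  have hΨ : ∀ k y, Ψ k y = (- m k) * y (Sum.inl ()) + ∑ j, k j * y (Sum.inr j) := by
    intro k y
    simp only [Ψ, LinearMap.coe_mk, AddHom.coe_mk, LinearMap.add_apply, LinearMap.smul_apply,
      LinearMap.sum_apply, LinearMap.proj_apply, smul_eq_mul]
  have hΨinj : Function.Injective Ψ := by
    intro k k' h
    funext j
    have h4 := congrArg (fun φ => φ (Pi.single (Sum.inr j) 1)) h
    simp only [hΨ] at h4
    have h5 : ∀ q : Fin n → ℝ, ∑ j', q j' * (Pi.single (Sum.inr j) (1 : ℝ) :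
        Unit ⊕ Fin n → ℝ) (Sum.inr j') = q j := by
      intro q
      rw [Finset.sum_eq_single j]
      · simp
      · intro b _ hb
        rw [Pi.single_eq_of_ne (by simpa using hb), mul_zero]
      · intro h; exact absurd (Finset.mem_univ j) h
    have h6 : (Pi.single (Sum.inr j) (1 : ℝ) : Unit ⊕ Fin n → ℝ) (Sum.inl ()) = 0 :=
      Pi.single_eq_of_ne (by simp) _
    rw [h5, h5, h6] at h4
    simpa using h4
  have hmaps : (Submodule.span ℝ (minCone a τ)).map Ψ ≤ R.dualAnnihilator := by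
    rw [Submodule.map_span, Submodule.span_le]
    rintro _ ⟨k, hk, rfl⟩
    rw [SetLike.mem_coe, Submodule.mem_dualAnnihilator]
    intro y hy
    rw [hR] at hy
    refine Submodule.span_induction (p := fun y _ => Ψ k y = 0) ?_ ?_ ?_ ?_ hy
    · rintro _ ⟨i, hi, rfl⟩
      rw [hΨ, hm]
      simp only [rowR, Sum.elim_inl, Sum.elim_inr, mul_one]
      have h4 := hk.2 i hi i₀
      have h5 := hk.2 i₀ hi₀ i
      have h6 : ∑ j, k j * (a i j : ℝ) = ∑ j, (a i j : ℝ) * k j :=
        Finset.sum_congr rfl fun j _ => mul_comm _ _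
      rw [h6]; linarith
    · exact map_zero _
    · intro x y _ _ hx hy
      rw [map_add, hx, hy, add_zero]
    · intro c x _ hx
      rw [map_smul, hx, smul_zero]
  have h4 : Module.finrank ℝ (Submodule.span ℝ (minCone a τ))
      = Module.finrank ℝ ((Submodule.span ℝ (minCone a τ)).map Ψ) :=
    (Submodule.equivMapOfInjective Ψ hΨinj _).finrank_eq
  have h5 := Submodule.finrank_mono hmaps
  omega

/-- Simplicial cone decompositions exist, with the dimension as a parameter. -/
theorem exists_cones_aux (a : Fin r → (Fin n →₀ ℕ)) (τ : Finset (Fin r)) (d : ℕ)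
    (hd : d = n + 1 - faceRank a τ) :
    ∃ (m : ℕ) (w : Fin m → Fin d → Fin n → ℕ),
      (∀ C c, toReal (w C c) ∈ minCone a τ) ∧
      (∀ C, LinearIndependent ℝ (fun c => toReal (w C c))) ∧
      (∀ C C', C ≠ C' →
        Disjoint (openCone fun c => toReal (w C c)) (openCone fun c => toReal (w C' c))) ∧
      ((∃ v : Fin d → Fin n → ℝ, LinearIndependent ℝ v ∧ ∀ c, v c ∈ minCone a τ) →
        ∀ k ∈ minCone a τ, ∃ C, k ∈ closedCone fun c => toReal (w C c)) := by
  classical
  by_cases hfull : ∃ v : Fin d → Fin n → ℝ, LinearIndependent ℝ v ∧ ∀ c, v c ∈ minCone a τ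
  swap
  · exact ⟨0, fun C => C.elim0, fun C => C.elim0, fun C => C.elim0, fun C => C.elim0,
      fun h => absurd h hfull⟩
  obtain ⟨v₀, hv₀ind, hv₀⟩ := hfull
  have hτ : τ.Nonempty := by
    by_contra hne
    rw [Finset.not_nonempty_iff_eq_empty] at hne
    have h1 : faceRank a τ = 0 := by
      rw [hne]; unfold faceRank; simp
    have h2 := hv₀ind.fintype_card_le_finrank
    rw [Fintype.card_fin, Module.finrank_fintype_fun_eq_card, Fintype.card_fin] at h2
    omega
  obtain ⟨J, hJ1, hJ2, w, hwmem, hw0, hwgen⟩ := exists_cone_generators a τ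
  let v : J → Fin n → ℝ := fun j => toReal (w j)
  obtain ⟨S, -, hind, hspan, hdisj, hcov⟩ := exists_triangulation v univ
    (∑ i, LinearMap.proj i) (fun j _ => by
      have h1 : (∑ i, (LinearMap.proj i : (Fin n → ℝ) →ₗ[ℝ] ℝ)) (v j) = ∑ i, (w j i : ℝ) := by
        rw [LinearMap.sum_apply]; rfl
      rw [h1]
      obtain ⟨i, hi⟩ : ∃ i, w j i ≠ 0 := by
        by_contra hno
        push Not at hno
        exact hw0 j (funext hno)
      exact Finset.sum_pos' (fun _ _ => Nat.cast_nonneg _)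
        ⟨i, Finset.mem_univ i, by exact_mod_cast Nat.pos_of_ne_zero hi⟩)
  -- the rank of the generators
  have hspanv : Submodule.span ℝ (v '' ((univ : Finset J) : Set J))
      = Submodule.span ℝ (minCone a τ) := by
    apply le_antisymm
    · apply Submodule.span_mono
      rintro _ ⟨j, -, rfl⟩
      exact hwmem j
    · rw [Submodule.span_le]
      intro k hk
      obtain ⟨c, -, hc⟩ := hwgen k hk
      rw [hc]
      exact Submodule.sum_mem _ fun j _ => Submodule.smul_mem _ _
        (Submodule.subset_span ⟨j, by simp, rfl⟩)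
  have hrank' : d ≤ Module.finrank ℝ (Submodule.span ℝ (minCone a τ)) := by
    have h1 := finrank_span_eq_card hv₀ind
    rw [Fintype.card_fin] at h1
    refine h1.symm.le.trans ?_
    apply Submodule.finrank_mono
    apply Submodule.span_mono
    rintro _ ⟨c, rfl⟩
    exact hv₀ c
  have hrank : Module.finrank ℝ (Submodule.span ℝ (minCone a τ)) = d :=
    le_antisymm (hd ▸ finrank_span_minCone_le a τ hτ) hrank'
  have hcard : ∀ σ ∈ S, σ.card = d := by
    intro σ hσ
    rw [card_eq_finrank v σ (hind σ hσ), hspan σ hσ, hspanv, hrank]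
  let e : (C : Fin S.card) → ((S.equivFin.symm C).1 : Finset J) ≃ Fin d := fun C =>
    Finset.equivFinOfCardEq (hcard _ (S.equivFin.symm C).2)
  let W : (C : Fin S.card) → Fin d → J := fun C c => ((e C).symm c).1
  have hsumW : ∀ (C : Fin S.card) (x : J → ℝ),
      ∑ c, x (W C c) • v (W C c) = ∑ i ∈ (S.equivFin.symm C).1, x i • v i := by
    intro C x
    exact (Fintype.sum_equiv (e C).symm (fun c => x (W C c) • v (W C c))
      (fun i : ((S.equivFin.symm C).1 : Finset J) => x i • v i) (fun c => rfl)).trans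
      (Finset.sum_coe_sort _ (fun i => x i • v i))
  refine ⟨S.card, fun C c => w (W C c), fun C c => hwmem _, ?_, ?_, ?_⟩
  · intro C
    have h1 : LinearIndependent ℝ (fun i : ((S.equivFin.symm C).1 : Finset J) => v i) :=
      hind _ (S.equivFin.symm C).2
    exact h1.comp _ (e C).symm.injective
  · intro C C' hne
    have h1 := hdisj _ (S.equivFin.symm C).2 _ (S.equivFin.symm C').2 (by
      intro h
      exact hne (S.equivFin.symm.injective (Subtype.ext h)))
    have h2 : ∀ C, openCone (fun c => toReal (w (W C c))) ⊆ oCone v (S.equivFin.symm C).1 := by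
      rintro C _ ⟨x, hx, rfl⟩
      refine ⟨fun i => if h : i ∈ (S.equivFin.symm C).1 then x (e C ⟨i, h⟩) else 0,
        fun i hi => ?_, ?_⟩
      · simp only [hi, dif_pos]; exact hx _
      · rw [← hsumW C]
        refine Finset.sum_congr rfl fun c _ => ?_
        have h3 : W C c ∈ (S.equivFin.symm C).1 := ((e C).symm c).2
        have h4 : e C ⟨W C c, h3⟩ = c := by
          have : (⟨W C c, h3⟩ : ((S.equivFin.symm C).1 : Finset J)) = (e C).symm c := rfl
          rw [this, Equiv.apply_symm_apply]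
        rw [dif_pos h3, h4]
    exact Disjoint.mono (h2 C) (h2 C') h1
  · intro _ k hk
    obtain ⟨c, hc0, hc⟩ := hwgen k hk
    obtain ⟨σ, hσ, x, hx, hxe⟩ := hcov k ⟨c, fun j _ => hc0 j, hc⟩
    refine ⟨S.equivFin ⟨σ, hσ⟩, fun c => x (W (S.equivFin ⟨σ, hσ⟩) c), fun c => ?_, ?_⟩
    · apply hx
      have h3 : W (S.equivFin ⟨σ, hσ⟩) c ∈ (S.equivFin.symm (S.equivFin ⟨σ, hσ⟩)).1 :=
        ((e (S.equivFin ⟨σ, hσ⟩)).symm c).2
      rwa [Equiv.symm_apply_apply] at h3
    · rw [hxe]
      have h4 := hsumW (S.equivFin ⟨σ, hσ⟩) x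
      rw [Equiv.symm_apply_apply] at h4
      exact h4.symm

/-- Simplicial cone decompositions exist. -/
theorem exists_faceCones (a : Fin r → (Fin n →₀ ℕ)) (τ : Finset (Fin r)) :
    Nonempty (FaceCones a τ) := by
  obtain ⟨m, w, h1, h2, h3, h4⟩ := exists_cones_aux a τ _ rfl
  exact ⟨⟨m, w, h1, h2, h3, h4⟩⟩

/-- Simplicial cone decompositions in the sense of `ConeDecomp` exist when the exponents in `σ`
are affinely independent. -/
theorem exists_coneDecomp (a : Fin r → (Fin n →₀ ℕ)) (σ : Finset (Fin r))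
    (hσ : faceRank a σ = σ.card) : Nonempty (ConeDecomp a σ) := by
  obtain ⟨m, w, h1, h2, h3, h4⟩ := exists_cones_aux a σ (n + 1 - σ.card) (by rw [hσ])
  exact ⟨⟨m, w, h1, h2, h3, h4⟩⟩

end Pool.Agent.H60.ConeExist
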