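import Pool.Agent.H60.Bern
import Pool.Agent.H78.AM.Defs

/-!
# Spectral sensitivity is at most `3/2` times the degree
-/

namespace Pool.Agent.H60.Bern

open Finset

variable {n : ℕ}

lemma co_of_degLE {d : ℕ} {f : (Fin n → Bool) → ℝ} (hd : Pool.Agent.H78.AM.DegLE d f) :
    ∀ S : Finset (Fin n), d < S.card → co f S = 0 := by
  obtain ⟨c, hc, hf⟩ := hd
  intro S hS
  have h1 : f = fun x => ∑ T, c T * chi T x := funext hf
  rw [h1, co_sum_chi c S]
  exact hc S hS

/-- crossing form, written with `DegLE` and a Boolean function `F`. -/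
theorem crossing_le {d : ℕ} {f : (Fin n → Bool) → ℝ} {F : (Fin n → Bool) → Bool}
    (hd : Pool.Agent.H78.AM.DegLE d f)
    (h1 : ∀ x, F x = true → 2/3 ≤ f x ∧ f x ≤ 1)
    (h0 : ∀ x, F x = false → -1 ≤ f x ∧ f x ≤ -(2/3))
    (u v : (Fin n → Bool) → ℝ) (hu : ∀ x, 0 ≤ u x) (hv : ∀ x, 0 ≤ v x)
    (hu' : ∀ x, F x = true → u x = 0) (hv' : ∀ x, F x = false → v x = 0) :
    ∑ x, ∑ i, u x * v (Function.update x i (!x i)) ≤
      3 / 2 * d * (Real.sqrt (∑ x, u x ^ 2) * Real.sqrt (∑ x, v x ^ 2)) := by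
  have hf : ∀ x, |f x| ≤ 1 := by
    intro x
    rw [abs_le]
    cases h : F x
    · exact ⟨(h0 x h).1, by linarith [(h0 x h).2]⟩
    · exact ⟨by linarith [(h1 x h).1], (h1 x h).2⟩
  have h := crossing d f u v hf (co_of_degLE hd) hu hv
    (by
      intro x hx
      cases h : F x
      · exact (h0 x h).2
      · exact absurd (hu' x h) hx)
    (by
      intro x hx
      cases h : F x
      · exact absurd (hv' x h) hx
      · exact (h1 x h).1)
  unfold flip at h
  linarith

/-- the same, `u` supported on `F`, `v` on the complement -/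
theorem crossing_le' {d : ℕ} {f : (Fin n → Bool) → ℝ} {F : (Fin n → Bool) → Bool}
    (hd : Pool.Agent.H78.AM.DegLE d f)
    (h1 : ∀ x, F x = true → 2/3 ≤ f x ∧ f x ≤ 1)
    (h0 : ∀ x, F x = false → -1 ≤ f x ∧ f x ≤ -(2/3))
    (u v : (Fin n → Bool) → ℝ) (hu : ∀ x, 0 ≤ u x) (hv : ∀ x, 0 ≤ v x)
    (hu' : ∀ x, F x = false → u x = 0) (hv' : ∀ x, F x = true → v x = 0) :
    ∑ x, ∑ i, u x * v (Function.update x i (!x i)) ≤
      3 / 2 * d * (Real.sqrt (∑ x, u x ^ 2) * Real.sqrt (∑ x, v x ^ 2)) := by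
  have h := crossing_le hd h1 h0 v u hv hu hv' hu'
  have e : ∑ x : Fin n → Bool, ∑ i, u x * v (Function.update x i (!x i)) =
      ∑ x : Fin n → Bool, ∑ i, v x * u (Function.update x i (!x i)) := by
    rw [Finset.sum_comm, Finset.sum_comm (f := fun x i => v x * u (Function.update x i (!x i)))]
    apply Finset.sum_congr rfl
    intro i _
    rw [← sum_flip i (fun x => v x * u (Function.update x i (!x i)))]
    apply Finset.sum_congr rfl
    intro x _
    have hff : Function.update (flip x i) i (!(flip x i) i) = x := flip_flip x i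
    simp only [hff]
    rw [mul_comm]
    rfl
  rw [e]
  calc _ ≤ _ := h
    _ = _ := by ring

/-- **Spectral sensitivity at most `3/2` times the degree.** -/
theorem form_le {d : ℕ} {f : (Fin n → Bool) → ℝ} {F : (Fin n → Bool) → Bool}
    (hd : Pool.Agent.H78.AM.DegLE d f)
    (h1 : ∀ x, F x = true → 2/3 ≤ f x ∧ f x ≤ 1)
    (h0 : ∀ x, F x = false → -1 ≤ f x ∧ f x ≤ -(2/3)) (v : (Fin n → Bool) → ℝ) :
    ∑ x, ∑ i, (if F (Function.update x i (!x i)) ≠ F x then
      v x * v (Function.update x i (!x i)) else 0) ≤ 3/2 * d * ∑ x, v x ^ 2 := by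
  set u : (Fin n → Bool) → ℝ := fun x => if F x = false then |v x| else 0 with hu
  set w : (Fin n → Bool) → ℝ := fun x => if F x = true then |v x| else 0 with hw
  have hu0 : ∀ x, 0 ≤ u x := by
    intro x; simp only [hu]; split_ifs <;> simp
  have hw0 : ∀ x, 0 ≤ w x := by
    intro x; simp only [hw]; split_ifs <;> simp
  have hu1 : ∀ x, F x = true → u x = 0 := by
    intro x hx; simp [hu, hx]
  have hw1 : ∀ x, F x = false → w x = 0 := by
    intro x hx; simp [hw, hx]
  have e1 := crossing_le hd h1 h0 u w hu0 hw0 hu1 hw1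
  have e2 := crossing_le' hd h1 h0 w u hw0 hu0 hw1 hu1
  have hsplit : ∑ x, ∑ i, (if F (Function.update x i (!x i)) ≠ F x then
      v x * v (Function.update x i (!x i)) else 0) ≤
      ∑ x, ∑ i, u x * w (Function.update x i (!x i)) +
      ∑ x, ∑ i, w x * u (Function.update x i (!x i)) := by
    rw [← Finset.sum_add_distrib]
    apply Finset.sum_le_sum
    intro x _
    rw [← Finset.sum_add_distrib]
    apply Finset.sum_le_sum
    intro i _
    have habs : v x * v (Function.update x i (!x i)) ≤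
        |v x| * |v (Function.update x i (!x i))| := by
      rw [← abs_mul]; exact le_abs_self _
    cases ha : F x <;> cases hb : F (Function.update x i (!x i)) <;>
      simp [hu, hw, ha, hb, habs]
  have hnorm : ∑ x, u x ^ 2 + ∑ x, w x ^ 2 = ∑ x, v x ^ 2 := by
    rw [← Finset.sum_add_distrib]
    apply Finset.sum_congr rfl
    intro x _
    cases ha : F x <;> simp [hu, hw, ha]
  have hU : 0 ≤ ∑ x, u x ^ 2 := Finset.sum_nonneg (fun _ _ => sq_nonneg _)
  have hW : 0 ≤ ∑ x, w x ^ 2 := Finset.sum_nonneg (fun _ _ => sq_nonneg _)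
  have amgm : 2 * (Real.sqrt (∑ x, u x ^ 2) * Real.sqrt (∑ x, w x ^ 2)) ≤ ∑ x, v x ^ 2 := by
    rw [← hnorm]
    nlinarith [sq_nonneg (Real.sqrt (∑ x, u x ^ 2) - Real.sqrt (∑ x, w x ^ 2)),
      Real.sq_sqrt hU, Real.sq_sqrt hW]
  have hd0 : (0 : ℝ) ≤ d := Nat.cast_nonneg d
  calc _ ≤ _ := hsplit
    _ ≤ 3 / 2 * d * (Real.sqrt (∑ x, u x ^ 2) * Real.sqrt (∑ x, w x ^ 2)) +
        3 / 2 * d * (Real.sqrt (∑ x, w x ^ 2) * Real.sqrt (∑ x, u x ^ 2)) := add_le_add e1 e2
    _ = 3 / 2 * d * (2 * (Real.sqrt (∑ x, u x ^ 2) * Real.sqrt (∑ x, w x ^ 2))) := by ring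
    _ ≤ 3 / 2 * d * ∑ x, v x ^ 2 := by
        apply mul_le_mul_of_nonneg_left amgm
        positivity

end Pool.Agent.H60.Bern
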