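import Mathlib

/-!
# Bernstein inequality on the cube (real, finite proof)

If `f` has Fourier degree at most `d` and `|f| ≤ 1` then for all `u v`
`|∑ x, ∑ i, (f (flip x i) - f x) * u x * v (flip x i)| ≤ 2 d ‖u‖ ‖v‖`.
-/

namespace Pool.Agent.H60.Bern

open Finset

/-- sign of a bit -/
def sg (b : Bool) : ℝ := if b then 1 else -1

/-- flip one bit -/
def flip {n : ℕ} (x : Fin n → Bool) (i : Fin n) : Fin n → Bool := Function.update x i (!x i)

/-- Walsh character -/
noncomputable def chi {n : ℕ} (S : Finset (Fin n)) (x : Fin n → Bool) : ℝ := ∏ i ∈ S, sg (x i)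

/-- Fourier coefficient -/
noncomputable def co {n : ℕ} (f : (Fin n → Bool) → ℝ) (S : Finset (Fin n)) : ℝ :=
  (∑ x, f x * chi S x) / 2 ^ n

variable {n : ℕ}

lemma sg_mul_self (b : Bool) : sg b * sg b = 1 := by cases b <;> simp [sg]

lemma sg_not (b : Bool) : sg (!b) = - sg b := by cases b <;> simp [sg]

lemma chi_flip (S : Finset (Fin n)) (x : Fin n → Bool) (i : Fin n) :
    chi S (flip x i) = (if i ∈ S then -1 else 1) * chi S x := by
  unfold chi flip
  by_cases h : i ∈ S
  · rw [if_pos h, ← Finset.mul_prod_erase S _ h, ← Finset.mul_prod_erase S (fun j => sg (x j)) h]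
    have : ∏ j ∈ S.erase i, sg (Function.update x i (!x i) j) = ∏ j ∈ S.erase i, sg (x j) := by
      apply Finset.prod_congr rfl
      intro j hj
      rw [Function.update_of_ne (Finset.ne_of_mem_erase hj)]
    rw [this, Function.update_self, sg_not]
    ring
  · rw [if_neg h, one_mul]
    apply Finset.prod_congr rfl
    intro j hj
    rw [Function.update_of_ne]
    rintro rfl
    exact h hj

lemma chi_mul (S T : Finset (Fin n)) (x : Fin n → Bool) :
    chi S x * chi T x = chi (symmDiff S T) x := by
  unfold chi
  have h1 : ∀ U : Finset (Fin n), ∏ i ∈ U, sg (x i) = ∏ i, (if i ∈ U then sg (x i) else 1) := by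
    intro U
    rw [Finset.prod_ite_mem, Finset.univ_inter]
  rw [h1, h1, h1, ← Finset.prod_mul_distrib]
  apply Finset.prod_congr rfl
  intro i _
  by_cases hS : i ∈ S <;> by_cases hT : i ∈ T <;>
    simp [hS, hT, Finset.mem_symmDiff, sg_mul_self]

lemma flip_flip (x : Fin n → Bool) (i : Fin n) : flip (flip x i) i = x := by
  unfold flip
  funext j
  by_cases h : j = i
  · subst h; simp
  · simp [Function.update_of_ne h]

/-- the flip at `i` as an equivalence -/
def flipEquiv (i : Fin n) : (Fin n → Bool) ≃ (Fin n → Bool) where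
  toFun x := flip x i
  invFun x := flip x i
  left_inv x := flip_flip x i
  right_inv x := flip_flip x i

lemma sum_flip (i : Fin n) (g : (Fin n → Bool) → ℝ) : ∑ x, g (flip x i) = ∑ x, g x :=
  Equiv.sum_comp (flipEquiv i) g

lemma sum_chi (S : Finset (Fin n)) : ∑ x, chi S x = if S = ∅ then 2 ^ n else 0 := by
  by_cases h : S = ∅
  · subst h; simp [chi]
  · rw [if_neg h]
    obtain ⟨i, hi⟩ := Finset.nonempty_iff_ne_empty.mpr h
    have h1 := sum_flip i (fun x => chi S x)
    simp only [chi_flip, if_pos hi] at h1
    rw [← Finset.mul_sum] at h1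
    linarith

lemma two_pow_pos : (0 : ℝ) < 2 ^ n := by positivity

lemma sum_chi_chi (x y : Fin n → Bool) : ∑ S : Finset (Fin n), chi S x * chi S y =
    if x = y then 2 ^ n else 0 := by
  have h1 : ∀ S : Finset (Fin n), chi S x * chi S y = ∏ i ∈ S, (sg (x i) * sg (y i)) := by
    intro S; unfold chi; rw [Finset.prod_mul_distrib]
  simp_rw [h1]
  have h2 : ∑ S : Finset (Fin n), ∏ i ∈ S, (sg (x i) * sg (y i)) =
      ∏ i, (1 + sg (x i) * sg (y i)) := by
    rw [Finset.prod_one_add]
    simp
  rw [h2]
  by_cases h : x = y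
  · subst h
    simp [sg_mul_self]
    norm_num
  · rw [if_neg h]
    obtain ⟨i, hi⟩ := Function.ne_iff.mp h
    apply Finset.prod_eq_zero (Finset.mem_univ i)
    revert hi
    cases x i <;> cases y i <;> simp [sg]

lemma inversion (f : (Fin n → Bool) → ℝ) (x : Fin n → Bool) :
    f x = ∑ S, co f S * chi S x := by
  unfold co
  have h0 : ∀ S : Finset (Fin n), (∑ y, f y * chi S y) / 2 ^ n * chi S x =
      ∑ y, f y / 2 ^ n * (chi S y * chi S x) := by
    intro S
    rw [Finset.sum_div, Finset.sum_mul]
    apply Finset.sum_congr rfl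
    intro y _; ring
  simp_rw [h0]
  rw [Finset.sum_comm]
  simp_rw [← Finset.mul_sum, sum_chi_chi]
  have hpos : (2 : ℝ) ^ n ≠ 0 := by positivity
  simp only [mul_ite, mul_zero]
  rw [Finset.sum_ite_eq' Finset.univ x]
  simp

/-- the triple product formula -/
lemma triple (g f h : (Fin n → Bool) → ℝ) :
    ∑ x, g x * f x * h x = 2 ^ n * ∑ S, ∑ T, co g S * co h T * co f (symmDiff S T) := by
  have h1 : ∀ x, g x * f x * h x = ∑ S, ∑ T, co g S * co h T * (f x * chi (symmDiff S T) x) := by
    intro x
    have e1 := inversion g x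
    have e2 := inversion h x
    calc g x * f x * h x = (∑ S, co g S * chi S x) * f x * (∑ T, co h T * chi T x) := by
          rw [← e1, ← e2]
      _ = ∑ S, ∑ T, co g S * co h T * (f x * chi (symmDiff S T) x) := by
          rw [Finset.sum_mul, Finset.sum_mul_sum]
          apply Finset.sum_congr rfl
          intro S _
          apply Finset.sum_congr rfl
          intro T _
          rw [← chi_mul]
          ring
  simp_rw [h1]
  rw [Finset.sum_comm, Finset.mul_sum]
  apply Finset.sum_congr rfl
  intro S _
  rw [Finset.sum_comm, Finset.mul_sum]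
  apply Finset.sum_congr rfl
  intro T _
  rw [← Finset.mul_sum]
  unfold co
  have hpos : (2 : ℝ) ^ n ≠ 0 := by positivity
  field_simp

/-- Fourier multiplier depending on the level -/
noncomputable def mult (m : ℕ → ℝ) (u : (Fin n → Bool) → ℝ) (x : Fin n → Bool) : ℝ :=
  ∑ S : Finset (Fin n), m S.card * co u S * chi S x

lemma co_sum_chi (a : Finset (Fin n) → ℝ) (T : Finset (Fin n)) :
    co (fun x => ∑ S, a S * chi S x) T = a T := by
  unfold co
  have h1 : ∀ x : Fin n → Bool, (∑ S, a S * chi S x) * chi T x =
      ∑ S, a S * chi (symmDiff S T) x := by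
    intro x
    rw [Finset.sum_mul]
    apply Finset.sum_congr rfl
    intro S _
    rw [← chi_mul]; ring
  simp_rw [h1]
  rw [Finset.sum_comm]
  simp_rw [← Finset.mul_sum, sum_chi]
  have hpos : (2 : ℝ) ^ n ≠ 0 := by positivity
  have h2 : ∀ S : Finset (Fin n), (symmDiff S T = ∅) ↔ S = T := by
    intro S
    rw [← Finset.bot_eq_empty, symmDiff_eq_bot]
  simp_rw [h2]
  simp only [mul_ite, mul_zero]
  rw [Finset.sum_ite_eq' Finset.univ T]
  simp

lemma co_mult (m : ℕ → ℝ) (u : (Fin n → Bool) → ℝ) (T : Finset (Fin n)) :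
    co (mult m u) T = m T.card * co u T :=
  co_sum_chi (fun S => m S.card * co u S) T

lemma parseval (u : (Fin n → Bool) → ℝ) : ∑ x, u x ^ 2 = 2 ^ n * ∑ S, co u S ^ 2 := by
  have h := triple u (fun _ => 1) u
  have hc : ∀ S T : Finset (Fin n), co (fun _ : Fin n → Bool => (1 : ℝ)) (symmDiff S T) =
      if T = S then 1 else 0 := by
    intro S T
    unfold co
    simp only [one_mul, sum_chi]
    have h2 : (symmDiff S T = ∅) ↔ T = S := by
      rw [← Finset.bot_eq_empty, symmDiff_eq_bot]
      exact eq_comm
    have hpos : (2 : ℝ) ^ n ≠ 0 := by positivity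
    by_cases h3 : T = S
    · rw [if_pos (h2.mpr h3), if_pos h3, div_self hpos]
    · rw [if_neg (fun h => h3 (h2.mp h)), if_neg h3, zero_div]
  simp_rw [hc] at h
  simp only [mul_ite, mul_one, mul_zero] at h
  simp only [Finset.sum_ite_eq', Finset.mem_univ, if_true] at h
  calc ∑ x, u x ^ 2 = ∑ x, u x * u x := by
        apply Finset.sum_congr rfl; intro x _; ring
    _ = 2 ^ n * ∑ S, co u S * co u S := h
    _ = 2 ^ n * ∑ S, co u S ^ 2 := by
        congr 1
        apply Finset.sum_congr rfl; intro x _; ring

lemma norm_mult (m : ℕ → ℝ) (hm : ∀ k, m k ^ 2 = 1) (u : (Fin n → Bool) → ℝ) :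
    ∑ x, mult m u x ^ 2 = ∑ x, u x ^ 2 := by
  rw [parseval, parseval]
  congr 1
  apply Finset.sum_congr rfl
  intro S _
  rw [co_mult, mul_pow, hm, one_mul]

lemma sum_neighbours (u : (Fin n → Bool) → ℝ) :
    (fun x => ∑ i, u (flip x i)) = fun x => ∑ S : Finset (Fin n), ((n : ℝ) - 2 * S.card) * co u S * chi S x := by
  funext x
  have h1 : ∀ i, u (flip x i) = ∑ S : Finset (Fin n), (if i ∈ S then (-1 : ℝ) else 1) * (co u S * chi S x) := by
    intro i
    rw [inversion u (flip x i)]
    apply Finset.sum_congr rfl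
    intro S _
    rw [chi_flip]; ring
  simp_rw [h1]
  rw [Finset.sum_comm]
  apply Finset.sum_congr rfl
  intro S _
  rw [← Finset.sum_mul]
  have h2 : ∑ i : Fin n, (if i ∈ S then (-1 : ℝ) else 1) = (n : ℝ) - 2 * S.card := by
    have h3 : ∀ i : Fin n, (if i ∈ S then (-1 : ℝ) else 1) = 1 - 2 * (if i ∈ S then 1 else 0) := by
      intro i; split_ifs <;> norm_num
    simp_rw [h3]
    rw [Finset.sum_sub_distrib, ← Finset.mul_sum]
    simp
  rw [h2]; ring

lemma co_neighbours (u : (Fin n → Bool) → ℝ) (T : Finset (Fin n)) :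
    co (fun x => ∑ i, u (flip x i)) T = ((n : ℝ) - 2 * T.card) * co u T := by
  rw [sum_neighbours]
  exact co_sum_chi (fun S => ((n : ℝ) - 2 * S.card) * co u S) T

/-- the commutator form -/
noncomputable def form (f u v : (Fin n → Bool) → ℝ) : ℝ :=
  ∑ x, ∑ i, (f (flip x i) - f x) * u x * v (flip x i)

lemma form_eq (f u v : (Fin n → Bool) → ℝ) :
    form f u v = 2 ^ n * ∑ S : Finset (Fin n), ∑ T : Finset (Fin n),
      co u S * co v T * co f (symmDiff S T) * (2 * ((T.card : ℝ) - S.card)) := by
  have e1 : form f u v = ∑ x, (∑ i, u (flip x i)) * f x * v x -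
      ∑ x, u x * f x * (∑ i, v (flip x i)) := by
    unfold form
    have h1 : ∀ x, ∑ i, (f (flip x i) - f x) * u x * v (flip x i) =
        ∑ i, f (flip x i) * u x * v (flip x i) - ∑ i, f x * u x * v (flip x i) := by
      intro x
      rw [← Finset.sum_sub_distrib]
      apply Finset.sum_congr rfl
      intro i _; ring
    simp_rw [h1]
    rw [Finset.sum_sub_distrib]
    congr 1
    · rw [Finset.sum_comm]
      have h2 : ∀ i, ∑ x, f (flip x i) * u x * v (flip x i) =
          ∑ x, f x * u (flip x i) * v x := by
        intro i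
        rw [← sum_flip i (fun x => f x * u (flip x i) * v x)]
        apply Finset.sum_congr rfl
        intro x _
        rw [flip_flip]
      simp_rw [h2]
      rw [Finset.sum_comm]
      apply Finset.sum_congr rfl
      intro x _
      rw [Finset.sum_mul, Finset.sum_mul]
      apply Finset.sum_congr rfl
      intro i _; ring
    · apply Finset.sum_congr rfl
      intro x _
      rw [Finset.mul_sum]
      apply Finset.sum_congr rfl
      intro i _; ring
  rw [e1, triple, triple]
  simp_rw [co_neighbours]
  rw [← mul_sub, ← Finset.sum_sub_distrib]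
  congr 1
  apply Finset.sum_congr rfl
  intro S _
  rw [← Finset.sum_sub_distrib]
  apply Finset.sum_congr rfl
  intro T _
  ring

/-- square wave of half period `m` -/
noncomputable def w (m k : ℕ) : ℝ := (-1) ^ (k / m)

lemma w_sq (m k : ℕ) : w m k ^ 2 = 1 := by
  unfold w
  rw [← pow_mul, mul_comm, pow_mul]
  norm_num

lemma w_add (m k : ℕ) (hm : 0 < m) : w m (k + m) = - w m k := by
  unfold w
  rw [Nat.add_div_right _ hm, pow_succ]
  ring

lemma sum_shift (m : ℕ) (φ : ℕ → ℝ) (hφ : ∀ k, φ (k + m) = φ k) (a : ℕ) :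
    ∑ c ∈ range m, φ (a + c) = ∑ c ∈ range m, φ c := by
  induction a with
  | zero => simp
  | succ a ih =>
    rw [← ih]
    have h1 := Finset.sum_range_succ (fun c => φ (a + c)) m
    have h2 := Finset.sum_range_succ' (fun c => φ (a + c)) m
    have h3 : φ (a + m) = φ (a + 0) := by rw [hφ]; simp
    have h4 : ∑ c ∈ range m, φ (a + 1 + c) = ∑ c ∈ range m, φ (a + (c + 1)) := by
      apply Finset.sum_congr rfl
      intro c _
      congr 1
      ring
    rw [h4]
    linarith

lemma wave (m a δ : ℕ) (hm : 0 < m) (hδ : δ ≤ m) :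
    ∑ c ∈ range m, w m (a + c) * w m (a + c + δ) = (m : ℝ) - 2 * δ := by
  have h1 := sum_shift m (fun k => w m k * w m (k + δ)) (by
    intro k
    have : k + m + δ = (k + δ) + m := by ring
    simp only [this, w_add _ _ hm]
    ring) a
  rw [h1]
  have h2 : ∀ c ∈ range m, w m c * w m (c + δ) = 1 - 2 * (if m - δ ≤ c then 1 else 0) := by
    intro c hc
    have hc' := Finset.mem_range.mp hc
    have e0 : c / m = 0 := Nat.div_eq_of_lt hc'
    unfold w
    rw [e0, pow_zero, one_mul]
    by_cases h : m - δ ≤ c
    · rw [if_pos h]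
      have e1 : (c + δ) / m = 1 := by
        rw [Nat.div_eq_iff hm]
        omega
      rw [e1]; norm_num
    · rw [if_neg h]
      have e1 : (c + δ) / m = 0 := Nat.div_eq_of_lt (by omega)
      rw [e1]; norm_num
  rw [Finset.sum_congr rfl h2, Finset.sum_sub_distrib, ← Finset.mul_sum, Finset.sum_boole]
  have h3 : (range m).filter (fun c => m - δ ≤ c) = Finset.Ico (m - δ) m := by
    ext c
    simp only [Finset.mem_filter, Finset.mem_range, Finset.mem_Ico]
    tauto
  rw [h3, Nat.card_Ico]
  have h4 : m - (m - δ) = δ := by omega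
  rw [h4]
  simp

/-- Cauchy-Schwarz with a bounded middle factor -/
lemma cs (f g h : (Fin n → Bool) → ℝ) (hf : ∀ x, |f x| ≤ 1) :
    |∑ x, g x * f x * h x| ≤ Real.sqrt (∑ x, g x ^ 2) * Real.sqrt (∑ x, h x ^ 2) := by
  calc |∑ x, g x * f x * h x| ≤ ∑ x, |g x| * |h x| := by
        refine (Finset.abs_sum_le_sum_abs _ _).trans ?_
        apply Finset.sum_le_sum
        intro x _
        rw [abs_mul, abs_mul]
        have := hf x
        have h1 : |g x| * |f x| ≤ |g x| * 1 := mul_le_mul_of_nonneg_left this (abs_nonneg _)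
        calc |g x| * |f x| * |h x| ≤ |g x| * 1 * |h x| :=
              mul_le_mul_of_nonneg_right h1 (abs_nonneg _)
          _ = |g x| * |h x| := by ring
    _ ≤ Real.sqrt (∑ x, |g x| ^ 2) * Real.sqrt (∑ x, |h x| ^ 2) :=
        Real.sum_mul_le_sqrt_mul_sqrt _ _ _
    _ = Real.sqrt (∑ x, g x ^ 2) * Real.sqrt (∑ x, h x ^ 2) := by
        simp [sq_abs]

/-- **Bernstein on the cube.** -/
theorem bernstein (d : ℕ) (f u v : (Fin n → Bool) → ℝ) (hf : ∀ x, |f x| ≤ 1)
    (hd : ∀ S : Finset (Fin n), d < S.card → co f S = 0) :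
    |form f u v| ≤ 2 * d * (Real.sqrt (∑ x, u x ^ 2) * Real.sqrt (∑ x, v x ^ 2)) := by
  rcases Nat.eq_zero_or_pos d with h0 | hpos
  · -- degree zero: f is constant
    subst h0
    have : form f u v = 0 := by
      rw [form_eq]
      have : ∀ S T : Finset (Fin n),
          co u S * co v T * co f (symmDiff S T) * (2 * ((T.card : ℝ) - S.card)) = 0 := by
        intro S T
        by_cases h : S = T
        · subst h; simp
        · have : 0 < (symmDiff S T).card := by
            rw [Finset.card_pos, Finset.nonempty_iff_ne_empty]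
            intro h1
            apply h
            rw [← Finset.bot_eq_empty, symmDiff_eq_bot] at h1
            exact h1
          rw [hd _ this]; ring
      simp [this]
    rw [this]; simp
  · set m : ℕ := 2 * d with hm
    have hmpos : 0 < m := by omega
    have key : form f u v = ∑ c ∈ range m,
        ∑ x, mult (fun k => w m (k + d + c)) u x * f x * mult (fun k => w m (k + c)) v x := by
      rw [form_eq]
      simp_rw [triple, co_mult]
      rw [← Finset.mul_sum]
      congr 1
      symm
      rw [Finset.sum_comm]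
      apply Finset.sum_congr rfl
      intro S _
      rw [Finset.sum_comm]
      apply Finset.sum_congr rfl
      intro T _
      symm
      by_cases h : d < (symmDiff S T).card
      · rw [hd _ h]; simp
      · have hcard : (symmDiff S T).card ≤ d := by omega
        have hST : T.card ≤ S.card + d := by
          have h1 : T ⊆ S ∪ symmDiff S T := by
            intro i hi
            by_cases h2 : i ∈ S
            · exact Finset.mem_union_left _ h2
            · exact Finset.mem_union_right _ (by rw [Finset.mem_symmDiff]; right; exact ⟨hi, h2⟩)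
          exact (Finset.card_le_card h1).trans ((Finset.card_union_le _ _).trans (by omega))
        have hTS : S.card ≤ T.card + d := by
          have h1 : S ⊆ T ∪ symmDiff S T := by
            intro i hi
            by_cases h2 : i ∈ T
            · exact Finset.mem_union_left _ h2
            · exact Finset.mem_union_right _ (by rw [Finset.mem_symmDiff]; left; exact ⟨hi, h2⟩)
          exact (Finset.card_le_card h1).trans ((Finset.card_union_le _ _).trans (by omega))
        have hw := wave m T.card (S.card + d - T.card) hmpos (by omega)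
        have e1 : ∑ c ∈ range m, w m (S.card + d + c) * w m (T.card + c) =
            2 * ((T.card : ℝ) - S.card) := by
          calc ∑ c ∈ range m, w m (S.card + d + c) * w m (T.card + c) =
              ∑ c ∈ range m, w m (T.card + c) * w m (T.card + c + (S.card + d - T.card)) := by
                apply Finset.sum_congr rfl
                intro c _
                have : T.card + c + (S.card + d - T.card) = S.card + d + c := by omega
                rw [this]; ring
            _ = (m : ℝ) - 2 * ((S.card + d - T.card : ℕ) : ℝ) := hw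
            _ = 2 * ((T.card : ℝ) - S.card) := by
                rw [Nat.cast_sub hST, hm]
                push_cast
                ring
        rw [← e1, Finset.mul_sum]
        apply Finset.sum_congr rfl
        intro c _
        ring
    rw [key]
    refine (Finset.abs_sum_le_sum_abs _ _).trans ?_
    calc ∑ c ∈ range m, |∑ x, mult (fun k => w m (k + d + c)) u x * f x *
          mult (fun k => w m (k + c)) v x| ≤
        ∑ c ∈ range m, (Real.sqrt (∑ x, u x ^ 2) * Real.sqrt (∑ x, v x ^ 2)) := by
          apply Finset.sum_le_sum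
          intro c _
          have := cs f (mult (fun k => w m (k + d + c)) u) (mult (fun k => w m (k + c)) v) hf
          rw [norm_mult _ (fun k => w_sq _ _), norm_mult _ (fun k => w_sq _ _)] at this
          exact this
      _ = 2 * d * (Real.sqrt (∑ x, u x ^ 2) * Real.sqrt (∑ x, v x ^ 2)) := by
          rw [Finset.sum_const, Finset.card_range, nsmul_eq_mul, hm]
          push_cast
          ring

/-- crossing form: nonnegative `u` on `f ≤ -2/3`, nonnegative `v` on `f ≥ 2/3`. -/
theorem crossing (d : ℕ) (f u v : (Fin n → Bool) → ℝ) (hf : ∀ x, |f x| ≤ 1)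
    (hd : ∀ S : Finset (Fin n), d < S.card → co f S = 0)
    (hu : ∀ x, 0 ≤ u x) (hv : ∀ x, 0 ≤ v x)
    (hu' : ∀ x, u x ≠ 0 → f x ≤ -(2/3)) (hv' : ∀ x, v x ≠ 0 → 2/3 ≤ f x) :
    2 * ∑ x, ∑ i, u x * v (flip x i) ≤
      3 * d * (Real.sqrt (∑ x, u x ^ 2) * Real.sqrt (∑ x, v x ^ 2)) := by
  have h1 := bernstein d f u v hf hd
  have h2 : 4/3 * ∑ x, ∑ i, u x * v (flip x i) ≤ form f u v := by
    unfold form
    rw [Finset.mul_sum]
    apply Finset.sum_le_sum
    intro x _
    rw [Finset.mul_sum]
    apply Finset.sum_le_sum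
    intro i _
    by_cases ha : u x = 0
    · simp [ha]
    by_cases hb : v (flip x i) = 0
    · simp [hb]
    have h3 := hu' x ha
    have h4 := hv' _ hb
    have h5 : 0 ≤ u x * v (flip x i) := mul_nonneg (hu x) (hv _)
    nlinarith
  have h3 := le_abs_self (form f u v)
  linarith

end Pool.Agent.H60.Bern
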