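import Pool.Agent.H37.MHD.Defs2

/-!
# MP_59296a_an: module M5b2 (small_region, Stage.base_error)
-/

open MeasureTheory Set Filter Topology
open scoped ContDiff
open H36.MHD

noncomputable section

namespace H37.MHD

namespace Region

lemma pd_smooth {g : V3 → ℝ} (hg : ContDiff ℝ ∞ g) (j : Fin 3) : ContDiff ℝ ∞ (pd j g) := by
  have h : ContDiff ℝ ∞ (fun x => fderiv ℝ g x) := hg.fderiv_right (by simp)
  exact h.clm_apply contDiff_const

lemma pd_cont {g : V3 → ℝ} (hg : ContDiff ℝ ∞ g) (j : Fin 3) : Continuous (pd j g) :=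
  (pd_smooth hg j).continuous

lemma lap3_cont {g : V3 → ℝ} (hg : ContDiff ℝ ∞ g) : Continuous (lap3 g) := by
  unfold lap3
  exact continuous_finsetSum _ fun j _ => pd_cont (pd_smooth hg j) j

lemma mm_cont (B : Bg) (k : Fin 3) : Continuous (mm B k) := by
  have h1 : ∀ k, Continuous (fun z : X => B.w k z.2) := fun k =>
    (B.w_smooth k).continuous.comp continuous_snd
  have h2 : ∀ j, Continuous (fun z : X => pd j (B.w k) z.2) := fun j =>
    (pd_cont (B.w_smooth k) j).comp continuous_snd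
  have h3 : Continuous (fun z : X => lap3 (B.w k) z.2) :=
    (lap3_cont (B.w_smooth k)).comp continuous_snd
  have h4 : Continuous (fun z : X => ∑ j, B.w j z.2 * pd j (B.w k) z.2) :=
    continuous_finsetSum _ fun j _ => (h1 j).mul (h2 j)
  have h0 : Continuous (fun z : X => z.1) := continuous_fst
  unfold mm
  exact (continuous_const.mul (((continuous_const.mul (h0.pow 2)).mul (h1 k)).abs.add
    ((h0.pow 6).mul h4).abs)).add ((h0.pow 3).mul h3).abs

lemma SS_cont (B : Bg) : Continuous (SS B) := by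
  have h1 : ∀ k, Continuous (fun z : X => B.w k z.2) := fun k =>
    (B.w_smooth k).continuous.comp continuous_snd
  have h0 : Continuous (fun z : X => z.1) := continuous_fst
  unfold SS th
  exact ((h0.pow 4).div_const _ |>.pow 2).mul (continuous_finsetSum _ fun k _ => (h1 k).pow 2)

lemma SS_nonneg (B : Bg) (z : X) : 0 ≤ SS B z := by
  unfold SS
  positivity

/-- where the profile vanishes, `mm` vanishes -/
lemma mm_zero_of_w (B : Bg) (z : X) (h : ∀ k, B.w k z.2 = 0) (k : Fin 3) : mm B k z = 0 := by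
  unfold mm
  rw [h k, B.w_lap z.2 h k]
  simp [h]

lemma mm_zero_of_SS (B : Bg) (z : X) (h : SS B z = 0) (k : Fin 3) : mm B k z = 0 := by
  unfold SS at h
  rcases mul_eq_zero.1 h with h1 | h1
  · have h2 : z.1 = 0 := by
      have h3 : th z.1 = 0 := by simpa using h1
      unfold th at h3
      have h4 : z.1 ^ 4 = 0 := by linarith
      simpa using h4
    unfold mm
    rw [h2]
    simp
  · apply mm_zero_of_w
    intro j
    have := (Finset.sum_eq_zero_iff_of_nonneg (fun k _ => sq_nonneg (B.w k z.2))).1 h1 j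
      (Finset.mem_univ j)
    simpa using this

/-! derivatives of `z ↦ c * t^3 * g x` -/

lemma hasFDerivAt_prod {g : V3 → ℝ} (hg : ContDiff ℝ ∞ g) (c : ℝ) (z : X) :
    HasFDerivAt (fun z : X => c * aa z.1 * g z.2)
      ((c * aa z.1) • (fderiv ℝ g z.2).comp (ContinuousLinearMap.snd ℝ ℝ V3) +
        (g z.2) • ((c * (3 * z.1 ^ 2)) • ContinuousLinearMap.fst ℝ ℝ V3)) z := by
  have h1 : HasFDerivAt (fun z : X => g z.2)
      ((fderiv ℝ g z.2).comp (ContinuousLinearMap.snd ℝ ℝ V3)) z :=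
    ((hg.differentiable (by simp)).differentiableAt.hasFDerivAt).comp z
      (ContinuousLinearMap.snd ℝ ℝ V3).hasFDerivAt
  have h2 : HasDerivAt (fun t : ℝ => c * aa t) (c * (3 * z.1 ^ 2)) z.1 := by
    unfold aa
    have := (hasDerivAt_pow 3 z.1).const_mul c
    simpa using this
  have h3 : HasFDerivAt (fun z : X => c * aa z.1)
      ((c * (3 * z.1 ^ 2)) • ContinuousLinearMap.fst ℝ ℝ V3) z := by
    have := h2.hasFDerivAt.comp z (ContinuousLinearMap.fst ℝ ℝ V3).hasFDerivAt
    refine this.congr_fderiv ?_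
    ext w <;> simp [mul_comm]
  exact h3.mul h1

lemma dt_prod {g : V3 → ℝ} (hg : ContDiff ℝ ∞ g) (c : ℝ) (z : X) :
    dt (fun z : X => c * aa z.1 * g z.2) z = c * (3 * z.1 ^ 2) * g z.2 := by
  unfold dt
  rw [(hasFDerivAt_prod hg c z).fderiv]
  simp
  ring

lemma dx_prod {g : V3 → ℝ} (hg : ContDiff ℝ ∞ g) (c : ℝ) (j : Fin 3) (z : X) :
    dx j (fun z : X => c * aa z.1 * g z.2) z = c * aa z.1 * pd j g z.2 := by
  unfold dx pd
  rw [(hasFDerivAt_prod hg c z).fderiv]
  simp

lemma dx_congr {F G : X → ℝ} {z : X} (h : F =ᶠ[𝓝 z] G) (j : Fin 3) : dx j F z = dx j G z := by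
  unfold dx
  rw [h.fderiv_eq]

lemma dt_congr {F G : X → ℝ} {z : X} (h : F =ᶠ[𝓝 z] G) : dt F z = dt G z := by
  unfold dt
  rw [h.fderiv_eq]

lemma dx_eventually {F G : X → ℝ} {z : X} (h : F =ᶠ[𝓝 z] G) (j : Fin 3) :
    dx j F =ᶠ[𝓝 z] dx j G := by
  filter_upwards [h.eventuallyEq_nhds] with y hy
  exact dx_congr hy j

end Region

open Region

theorem small_region (B : Bg) (η : ℝ) (hη : 0 < η) : ∃ s1, 0 < s1 ∧
    ∀ z : X, |z.1| ≤ B.T → SS B z < s1 ^ 2 → ∀ k, mm B k z ≤ η := by
  classical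
  set Kc : Set X := (Icc (-B.T) B.T) ×ˢ Metric.closedBall B.x0 B.r with hKc
  have hKcomp : IsCompact Kc := isCompact_Icc.prod (isCompact_closedBall _ _)
  set A : Set X := Kc ∩ ⋃ k, {z | η ≤ mm B k z} with hA
  have hAclosed : IsClosed (⋃ k, {z : X | η ≤ mm B k z}) :=
    isClosed_iUnion_of_finite fun k => isClosed_le continuous_const (mm_cont B k)
  have hAcomp : IsCompact A := hKcomp.inter_right hAclosed
  have hmain : ∀ z : X, |z.1| ≤ B.T → z ∉ A → ∀ k, mm B k z ≤ η := by
    intro z hz hzA k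
    by_cases hx : z.2 ∈ Metric.closedBall B.x0 B.r
    · by_contra hcon
      apply hzA
      refine ⟨⟨abs_le.1 hz, hx⟩, mem_iUnion.2 ⟨k, ?_⟩⟩
      exact (not_le.1 hcon).le
    · rw [mm_zero_of_w B z (fun j => ?_) k]
      · exact hη.le
      · by_contra hcon
        apply hx
        rw [Metric.mem_closedBall, dist_eq_norm]
        exact B.w_supp j z.2 hcon
  by_cases hne : A.Nonempty
  · obtain ⟨z0, hz0, hmin⟩ := hAcomp.exists_isMinOn hne (SS_cont B).continuousOn
    have hpos : 0 < SS B z0 := by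
      rcases (SS_nonneg B z0).lt_or_eq with h | h
      · exact h
      · exfalso
        obtain ⟨k, hk⟩ := mem_iUnion.1 hz0.2
        have : mm B k z0 = 0 := mm_zero_of_SS B z0 h.symm k
        have hk' : η ≤ mm B k z0 := hk
        linarith
    refine ⟨Real.sqrt (SS B z0), Real.sqrt_pos.2 hpos, fun z hz hS => ?_⟩
    rw [Real.sq_sqrt hpos.le] at hS
    apply hmain z hz
    intro hzA
    have := hmin hzA
    simp only [Set.mem_ofPred_eq] at this
    linarith
  · refine ⟨1, one_pos, fun z hz _ => hmain z hz ?_⟩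
    intro hzA
    exact hne ⟨z, hzA⟩

variable {B : Bg}

theorem Stage.base_error (st : Stage B) (ε C : ℝ) (i : Fin 2) (k : Fin 3) (z : X)
    (hS : SS B z < st.s ^ 2) (hC : |st.dens i z + ε * C| ≤ 2) :
    |st.E i k z + ε * C * acc (st.u i) st.f k z| ≤ mm B k z := by
  have hopen : IsOpen {z : X | SS B z < st.s ^ 2} := isOpen_lt (SS_cont B) continuous_const
  have hnhds : ∀ᶠ y in 𝓝 z, SS B y < st.s ^ 2 := hopen.mem_nhds hS
  have hu : ∀ l, st.u i l =ᶠ[𝓝 z] fun y => sg i * aa y.1 * B.w l y.2 := by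
    intro l
    filter_upwards [hnhds] with y hy
    exact (st.base y hy i l).1
  have hp : st.p i =ᶠ[𝓝 z] fun _ => 0 := by
    filter_upwards [hnhds] with y hy
    exact (st.base y hy i k).2.2
  have hsg : sg i ^ 2 = 1 := by
    unfold sg
    split_ifs <;> norm_num
  have hsgabs : |sg i| = 1 := by
    unfold sg
    split_ifs <;> simp
  have hdt : dt (st.u i k) z = sg i * (3 * z.1 ^ 2) * B.w k z.2 := by
    rw [dt_congr (hu k), dt_prod (B.w_smooth k)]
  have hdx : ∀ j, dx j (st.u i k) z = sg i * aa z.1 * pd j (B.w k) z.2 := by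
    intro j
    rw [dx_congr (hu k), dx_prod (B.w_smooth k)]
  have hlap : lap (st.u i k) z = sg i * z.1 ^ 3 * lap3 (B.w k) z.2 := by
    unfold lap lap3
    rw [Finset.mul_sum]
    refine Finset.sum_congr rfl fun j _ => ?_
    have h1 : dx j (st.u i k) =ᶠ[𝓝 z] fun y => sg i * aa y.1 * pd j (B.w k) y.2 := by
      refine (dx_eventually (hu k) j).trans (Eventually.of_forall fun y => ?_)
      exact dx_prod (B.w_smooth k) _ j y
    rw [dx_congr h1, dx_prod (pd_smooth (B.w_smooth k) j)]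
    rfl
  have hdp : dx k (st.p i) z = 0 := by
    rw [dx_congr hp]
    unfold dx
    simp
  have hacc : acc (st.u i) st.f k z = sg i * (3 * z.1 ^ 2 * B.w k z.2) +
      z.1 ^ 6 * ∑ j, B.w j z.2 * pd j (B.w k) z.2 := by
    unfold acc
    rw [hdt, (st.base z hS i k).2.1, Finset.mul_sum, sub_zero]
    congr 1
    · ring
    · refine Finset.sum_congr rfl fun j _ => ?_
      rw [hdx j, (st.base z hS i j).1]
      unfold aa
      linear_combination (z.1 ^ 6 * B.w j z.2 * pd j (B.w k) z.2) * hsg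
  have haccle : |acc (st.u i) st.f k z| ≤ |3 * z.1 ^ 2 * B.w k z.2| +
      |z.1 ^ 6 * ∑ j, B.w j z.2 * pd j (B.w k) z.2| := by
    rw [hacc]
    refine (abs_add_le _ _).trans ?_
    rw [abs_mul (sg i), hsgabs, one_mul]
  have hE : st.E i k z + ε * C * acc (st.u i) st.f k z =
      (st.dens i z + ε * C) * acc (st.u i) st.f k z - sg i * z.1 ^ 3 * lap3 (B.w k) z.2 := by
    unfold Stage.E
    rw [hlap, hdp]
    ring
  rw [hE]
  unfold mm
  refine (abs_sub _ _).trans ?_
  apply add_le_add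
  · rw [abs_mul]
    exact mul_le_mul hC haccle (abs_nonneg _) (by norm_num)
  · rw [mul_assoc, abs_mul (sg i), hsgabs, one_mul]

end H37.MHD
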